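import Mathlib

/-!
Log-M-natural-concave arrays on the plane are closed under convolution.
-/

open Finset

namespace LG3.CS

/-- the three root directions -/
def dv : Fin 3 → ℤ × ℤ := ![(1, 0), (0, 1), (1, 1)]

/-- the cone of the differences for which the direction is used -/
def cn (i : Fin 3) (u : ℤ × ℤ) : Prop :=
  match i with
  | 0 => 0 < u.1 ∧ u.2 < u.1
  | 1 => 0 < u.2 ∧ u.1 < u.2
  | 2 => 0 < u.1 ∧ 0 < u.2

/-- a nonnegative array with the exchange inequalities -/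
structure LM (F : ℤ × ℤ → ℝ) : Prop where
  nn : ∀ z, 0 ≤ F z
  ex : ∀ i x y, cn i (y - x) → F x * F y ≤ F (x + dv i) * F (y - dv i)

/-- the steps which are allowed for the difference u -/
def Al (u p : ℤ × ℤ) : Prop := p = 0 ∨ ∃ j, (p = dv j ∧ cn j u) ∨ (p = -dv j ∧ cn j (-u))

theorem LM.al {F : ℤ × ℤ → ℝ} (hF : LM F) {x y p : ℤ × ℤ} (h : Al (y - x) p) :
    F x * F y ≤ F (x + p) * F (y - p) := by
  rcases h with rfl | ⟨j, ⟨rfl, h⟩ | ⟨rfl, h⟩⟩
  · simp
  · exact hF.ex j x y h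
  · have h1 := hF.ex j y x (by rwa [neg_sub] at h)
    have e1 : y - -dv j = y + dv j := sub_neg_eq_add _ _
    have e2 : x + -dv j = x - dv j := (sub_eq_add_neg _ _).symm
    rw [e1, e2]
    linarith [mul_comm (F x) (F y), mul_comm (F (y + dv j)) (F (x - dv j))]

theorem al0 (u : ℤ × ℤ) : Al u 0 := Or.inl rfl

theorem alp {u : ℤ × ℤ} (j : Fin 3) (h : cn j u) : Al u (dv j) := Or.inr ⟨j, Or.inl ⟨rfl, h⟩⟩

theorem aln {u : ℤ × ℤ} (j : Fin 3) (h : cn j (-u)) : Al u (-dv j) := Or.inr ⟨j, Or.inr ⟨rfl, h⟩⟩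

theorem split (i : Fin 3) (u v : ℤ × ℤ) (h : cn i (u + v)) :
    ∃ p q, p + q = dv i ∧ Al u p ∧ Al v q := by
  obtain ⟨u1, u2⟩ := u
  obtain ⟨v1, v2⟩ := v
  fin_cases i
  · have h' : 0 < u1 + v1 ∧ u2 + v2 < u1 + v1 := h
    by_cases h1 : 0 < u1 ∧ u2 < u1
    · exact ⟨dv 0, 0, by simp, alp 0 h1, al0 _⟩
    by_cases h2 : 0 < v1 ∧ v2 < v1
    · exact ⟨0, dv 0, by simp, al0 _, alp 0 h2⟩
    by_cases h3 : 0 < u1
    · refine ⟨dv 2, -dv 1, by simp [dv], alp 2 ?_, aln 1 ?_⟩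
      · show 0 < u1 ∧ 0 < u2
        omega
      · show 0 < -v2 ∧ -v1 < -v2
        omega
    · refine ⟨-dv 1, dv 2, by simp [dv], aln 1 ?_, alp 2 ?_⟩
      · show 0 < -u2 ∧ -u1 < -u2
        omega
      · show 0 < v1 ∧ 0 < v2
        omega
  · have h' : 0 < u2 + v2 ∧ u1 + v1 < u2 + v2 := h
    by_cases h1 : 0 < u2 ∧ u1 < u2
    · exact ⟨dv 1, 0, by simp, alp 1 h1, al0 _⟩
    by_cases h2 : 0 < v2 ∧ v1 < v2
    · exact ⟨0, dv 1, by simp, al0 _, alp 1 h2⟩
    by_cases h3 : 0 < u2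
    · refine ⟨dv 2, -dv 0, by simp [dv], alp 2 ?_, aln 0 ?_⟩
      · show 0 < u1 ∧ 0 < u2
        omega
      · show 0 < -v1 ∧ -v2 < -v1
        omega
    · refine ⟨-dv 0, dv 2, by simp [dv], aln 0 ?_, alp 2 ?_⟩
      · show 0 < -u1 ∧ -u2 < -u1
        omega
      · show 0 < v1 ∧ 0 < v2
        omega
  · have h' : 0 < u1 + v1 ∧ 0 < u2 + v2 := h
    by_cases h1 : 0 < u1 ∧ 0 < u2
    · exact ⟨dv 2, 0, by simp, alp 2 h1, al0 _⟩
    by_cases h2 : 0 < v1 ∧ 0 < v2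
    · exact ⟨0, dv 2, by simp, al0 _, alp 2 h2⟩
    by_cases h3 : 0 < u1
    · refine ⟨dv 0, dv 1, by simp [dv], alp 0 ?_, alp 1 ?_⟩
      · show 0 < u1 ∧ u2 < u1
        omega
      · show 0 < v2 ∧ v1 < v2
        omega
    · refine ⟨dv 1, dv 0, by simp [dv], alp 1 ?_, alp 0 ?_⟩
      · show 0 < u2 ∧ u1 < u2
        omega
      · show 0 < v1 ∧ v2 < v1
        omega

/-- convolution, F being supported in S -/
def cv (S : Finset (ℤ × ℤ)) (F G : ℤ × ℤ → ℝ) (z : ℤ × ℤ) : ℝ := ∑ x ∈ S, F x * G (z - x)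

theorem cv_nn {S : Finset (ℤ × ℤ)} {F G : ℤ × ℤ → ℝ} (hF : LM F) (hG : LM G) (z : ℤ × ℤ) :
    0 ≤ cv S F G z := sum_nonneg (fun x _ => mul_nonneg (hF.nn x) (hG.nn _))

theorem term_le {S : Finset (ℤ × ℤ)} {F G : ℤ × ℤ → ℝ} (hF : LM F) (hG : LM G)
    (hS : ∀ z, z ∉ S → F z = 0) (z a : ℤ × ℤ) : F a * G (z - a) ≤ cv S F G z := by
  by_cases ha : a ∈ S
  · exact single_le_sum (f := fun x => F x * G (z - x)) (fun x _ => mul_nonneg (hF.nn x) (hG.nn _)) ha
  · rw [hS a ha, zero_mul]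
    exact cv_nn hF hG z

/-- the exchange inequality with the constant c -/
def Pc (S : Finset (ℤ × ℤ)) (c : ℝ) : Prop := ∀ F G : ℤ × ℤ → ℝ, LM F → LM G → (∀ z, z ∉ S → F z = 0) →
  ∀ i x y, cn i (y - x) → cv S F G x * cv S F G y ≤ c * (cv S F G (x + dv i) * cv S F G (y - dv i))

theorem Pc_base (S : Finset (ℤ × ℤ)) : Pc S ((S.card : ℝ) ^ 2 + 1) := by
  intro F G hF hG hS i x y hxy
  set R := cv S F G (x + dv i) * cv S F G (y - dv i) with hR
  have hR0 : 0 ≤ R := mul_nonneg (cv_nn hF hG _) (cv_nn hF hG _)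
  have key : ∀ a ∈ S, ∀ b ∈ S, (F a * G (x - a)) * (F b * G (y - b)) ≤ R := by
    intro a _ b _
    have hs : cn i ((b - a) + ((y - b) - (x - a))) := by
      rwa [show (b - a) + ((y - b) - (x - a)) = y - x by abel]
    obtain ⟨p, q, hpq, hp, hq⟩ := split i _ _ hs
    have h1 := hF.al hp
    have h2 := hG.al hq
    have e1 : x - a + q = x + dv i - (a + p) := by rw [← hpq]; abel
    have e2 : y - b - q = y - dv i - (b - p) := by rw [← hpq]; abel
    rw [e1, e2] at h2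
    calc (F a * G (x - a)) * (F b * G (y - b)) = (F a * F b) * (G (x - a) * G (y - b)) := by ring
      _ ≤ (F (a + p) * F (b - p)) * (G (x + dv i - (a + p)) * G (y - dv i - (b - p))) :=
          mul_le_mul h1 h2 (mul_nonneg (hG.nn _) (hG.nn _)) (mul_nonneg (hF.nn _) (hF.nn _))
      _ = (F (a + p) * G (x + dv i - (a + p))) * (F (b - p) * G (y - dv i - (b - p))) := by ring
      _ ≤ R := mul_le_mul (term_le hF hG hS _ _) (term_le hF hG hS _ _)
          (mul_nonneg (hF.nn _) (hG.nn _)) (cv_nn hF hG _)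
  have h3 : cv S F G x * cv S F G y ≤ (S.card : ℝ) ^ 2 * R := by
    unfold cv
    rw [sum_mul_sum]
    calc ∑ a ∈ S, ∑ b ∈ S, (F a * G (x - a)) * (F b * G (y - b)) ≤ ∑ a ∈ S, ∑ b ∈ S, R :=
          sum_le_sum (fun a ha => sum_le_sum (fun b hb => key a ha b hb))
      _ = (S.card : ℝ) ^ 2 * R := by
          rw [sum_const, sum_const, nsmul_eq_mul, nsmul_eq_mul]
          ring
  nlinarith

/-- products with a reflection -/
def rf (F : ℤ × ℤ → ℝ) (s z : ℤ × ℤ) : ℝ := F z * F (s - z)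

theorem rf_LM {F : ℤ × ℤ → ℝ} (hF : LM F) (s : ℤ × ℤ) : LM (rf F s) := by
  refine ⟨fun z => mul_nonneg (hF.nn _) (hF.nn _), fun i x y h => ?_⟩
  have h1 := hF.ex i x y h
  have h2 := hF.ex i (s - y) (s - x) (by rwa [show s - x - (s - y) = y - x by abel])
  unfold rf
  rw [show s - (x + dv i) = s - x - dv i by abel, show s - (y - dv i) = s - y + dv i by abel]
  calc F x * F (s - x) * (F y * F (s - y)) = (F x * F y) * (F (s - y) * F (s - x)) := by ring
    _ ≤ (F (x + dv i) * F (y - dv i)) * (F (s - y + dv i) * F (s - x - dv i)) :=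
        mul_le_mul h1 h2 (mul_nonneg (hF.nn _) (hF.nn _)) (mul_nonneg (hF.nn _) (hF.nn _))
    _ = _ := by ring

theorem rf_symm (F : ℤ × ℤ → ℝ) (s z : ℤ × ℤ) : rf F s (s - z) = rf F s z := by
  unfold rf
  rw [sub_sub_cancel, mul_comm]

theorem cv_symm {S : Finset (ℤ × ℤ)} {F G : ℤ × ℤ → ℝ} (hS : ∀ z, z ∉ S → F z = 0)
    {s t x y : ℤ × ℤ} (h : x + y = s + t) : cv S (rf F s) (rf G t) x = cv S (rf F s) (rf G t) y := by
  unfold cv
  have hin : ∀ a, rf F s a ≠ 0 → a ∈ S ∧ s - a ∈ S := by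
    intro a ha
    constructor
    · by_contra hn
      exact ha (by rw [rf, hS a hn, zero_mul])
    · by_contra hn
      exact ha (by rw [rf, hS _ hn, mul_zero])
  refine sum_bij_ne_zero (fun a _ _ => s - a) ?_ ?_ ?_ ?_
  · intro a _ hne
    exact (hin a (left_ne_zero_of_mul hne)).2
  · intro a _ _ b _ _ hab
    exact sub_right_injective hab
  · intro b _ hne
    have h1 := hin b (left_ne_zero_of_mul hne)
    refine ⟨s - b, h1.2, ?_, sub_sub_cancel _ _⟩
    rw [rf_symm]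
    refine mul_ne_zero (left_ne_zero_of_mul hne) ?_
    rw [show x - (s - b) = t - (y - b) by
      have : x = s + t - y := by rw [← h]; abel
      rw [this]; abel, rf_symm]
    exact right_ne_zero_of_mul hne
  · intro a _ _
    rw [rf_symm, show y - (s - a) = t - (x - a) by
      have : y = s + t - x := by rw [← h]; abel
      rw [this]; abel, rf_symm]

theorem cv_mul {S : Finset (ℤ × ℤ)} {F G : ℤ × ℤ → ℝ} (hS : ∀ z, z ∉ S → F z = 0) (x y : ℤ × ℤ) :
    cv S F G x * cv S F G y =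
      ∑ s ∈ (S ×ˢ S).image (fun p => p.1 + p.2), cv S (rf F s) (rf G (x + y - s)) x := by
  unfold cv
  rw [sum_mul_sum, sum_comm]
  rw [sum_comm]
  rw [sum_comm (s := (S ×ˢ S).image (fun p => p.1 + p.2))]
  refine sum_congr rfl (fun a ha => ?_)
  have e : ∀ s, rf F s a * rf G (x + y - s) (x - a) =
      F a * G (x - a) * (F (s - a) * G (y - (s - a))) := by
    intro s
    unfold rf
    rw [show x + y - s - (x - a) = y - (s - a) by abel]
    ring
  simp only [e]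
  have hinj : Set.InjOn (fun b => a + b) (S : Set (ℤ × ℤ)) := fun b _ c _ h => add_left_cancel h
  have h1 : ∑ s ∈ S.image (fun b => a + b), F a * G (x - a) * (F (s - a) * G (y - (s - a))) =
      ∑ b ∈ S, F a * G (x - a) * (F b * G (y - b)) := by
    rw [sum_image hinj]
    refine sum_congr rfl (fun b _ => ?_)
    rw [add_sub_cancel_left]
  rw [← h1]
  refine sum_subset ?_ ?_
  · intro s hs
    obtain ⟨b, hb, rfl⟩ := mem_image.mp hs
    exact mem_image.mpr ⟨(a, b), mem_product.mpr ⟨ha, hb⟩, rfl⟩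
  · intro s _ hs
    have : s - a ∉ S := by
      intro h
      exact hs (mem_image.mpr ⟨s - a, h, by simp⟩)
    rw [hS _ this]
    ring

theorem Pc_step {S : Finset (ℤ × ℤ)} {c : ℝ} (h : Pc S c) : Pc S (Real.sqrt c) := by
  intro F G hF hG hS i x y hxy
  rw [cv_mul hS x y, cv_mul hS (x + dv i) (y - dv i),
    show x + dv i + (y - dv i) = x + y by abel, mul_sum]
  refine sum_le_sum (fun s _ => ?_)
  have hS' : ∀ z, z ∉ S → rf F s z = 0 := fun z hz => by rw [rf, hS z hz, zero_mul]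
  have hF' := rf_LM hF s
  have hG' := rf_LM hG (x + y - s)
  have h1 := h _ _ hF' hG' hS' i x y hxy
  rw [← cv_symm (s := s) (t := x + y - s) (x := x) (y := y) hS (by abel),
    ← cv_symm (s := s) (t := x + y - s) (x := x + dv i) (y := y - dv i) hS (by abel)] at h1
  have n1 := cv_nn (S := S) hF' hG' x
  have n2 := cv_nn (S := S) hF' hG' (x + dv i)
  rw [← sq, ← sq] at h1
  calc cv S (rf F s) (rf G (x + y - s)) x = Real.sqrt (cv S (rf F s) (rf G (x + y - s)) x ^ 2) :=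
        (Real.sqrt_sq n1).symm
    _ ≤ Real.sqrt (c * cv S (rf F s) (rf G (x + y - s)) (x + dv i) ^ 2) := Real.sqrt_le_sqrt h1
    _ = _ := by rw [Real.sqrt_mul' _ (sq_nonneg _), Real.sqrt_sq n2]

theorem Pc_iter (S : Finset (ℤ × ℤ)) (k : ℕ) :
    Pc S (((S.card : ℝ) ^ 2 + 1) ^ (((1 : ℝ) / 2) ^ k)) := by
  induction k with
  | zero =>
    rw [pow_zero, Real.rpow_one]
    exact Pc_base S
  | succ k ih =>
    have h := Pc_step ih
    rw [Real.sqrt_eq_rpow, ← Real.rpow_mul (by positivity)] at h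
    rw [pow_succ]
    exact h

/-- the exchange inequality for the convolution -/
theorem cv_ex {S : Finset (ℤ × ℤ)} {F G : ℤ × ℤ → ℝ} (hF : LM F) (hG : LM G)
    (hS : ∀ z, z ∉ S → F z = 0) (i : Fin 3) (x y : ℤ × ℤ) (hxy : cn i (y - x)) :
    cv S F G x * cv S F G y ≤ cv S F G (x + dv i) * cv S F G (y - dv i) := by
  set R := cv S F G (x + dv i) * cv S F G (y - dv i) with hR
  have h1 : Filter.Tendsto (fun k : ℕ => ((1 : ℝ) / 2) ^ k) Filter.atTop (nhds 0) :=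
    tendsto_pow_atTop_nhds_zero_of_lt_one (by norm_num) (by norm_num)
  have h2 : Filter.Tendsto (fun k : ℕ => ((S.card : ℝ) ^ 2 + 1) ^ (((1 : ℝ) / 2) ^ k) * R)
      Filter.atTop (nhds (((S.card : ℝ) ^ 2 + 1) ^ (0 : ℝ) * R)) :=
    (((Real.continuous_const_rpow (by positivity)).tendsto 0).comp h1).mul_const R
  rw [Real.rpow_zero, one_mul] at h2
  exact ge_of_tendsto' h2 (fun k => Pc_iter S k F G hF hG hS i x y hxy)

/-- the class is closed under convolution -/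
theorem cv_LM {S : Finset (ℤ × ℤ)} {F G : ℤ × ℤ → ℝ} (hF : LM F) (hG : LM G)
    (hS : ∀ z, z ∉ S → F z = 0) : LM (cv S F G) :=
  ⟨fun z => cv_nn hF hG z, fun i x y h => cv_ex hF hG hS i x y h⟩

end LG3.CS
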