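import Pool.Agent.Lib.MP_3cd99b_gt.CS.Sum

/-!
Connected sums along an arbitrary strand: a (1,1)-tangle diagram inserted into a diagram.
-/

open Finset

namespace LG3.CS

/-- the same piece, k strands further -/
def shiftPiece (k : ℕ) : Piece → Piece
  | .cup j f => .cup (k + j) f
  | .cap j f => .cap (k + j) f
  | .cross j s => .cross (k + j) s

section Lists

variable {X : Type*}

theorem tk (A l B : List X) {j : ℕ} (h : j ≤ l.length) :
    (A ++ (l ++ B)).take (A.length + j) = A ++ l.take j := by
  rw [List.take_length_add_append, List.take_append_of_le_length h]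

theorem dr (A l B : List X) {j : ℕ} (h : j ≤ l.length) :
    (A ++ (l ++ B)).drop (A.length + j) = l.drop j ++ B := by
  rw [List.drop_length_add_append, List.drop_append_of_le_length h]

theorem dr2 (A l B : List X) {j : ℕ} (h : j + 2 ≤ l.length) :
    (A ++ (l ++ B)).drop (A.length + j + 2) = l.drop (j + 2) ++ B := by
  rw [Nat.add_assoc, dr A l B h]

end Lists

theorem dir_shift {c : Piece} {l m : List Bool} (h : c.dir l = some m) (A B : List Bool) :
    (shiftPiece A.length c).dir (A ++ (l ++ B)) = some (A ++ (m ++ B)) := by
  cases c with
  | cup j f =>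
    simp only [Piece.dir] at h
    split_ifs at h with h1
    simp only [Option.some.injEq] at h
    subst h
    simp only [shiftPiece, Piece.dir]
    rw [if_pos (by simp only [List.length_append]; omega), tk A l B h1, dr A l B h1]
    simp
  | cap j f =>
    simp only [Piece.dir] at h
    split_ifs at h with h1
    simp only [Option.some.injEq] at h
    subst h
    have h2 := congrArg List.length h1
    simp only [List.length_cons, List.length_drop] at h2
    simp only [shiftPiece, Piece.dir]
    rw [tk A l B (by omega), dr A l B (by omega), dr2 A l B (by omega), if_pos (by rw [h1]; simp)]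
    simp
  | cross j e =>
    simp only [Piece.dir] at h
    split_ifs at h with h1
    simp only [Option.some.injEq] at h
    subst h
    have h2 := congrArg List.length h1
    simp only [List.length_cons, List.length_drop] at h2
    simp only [shiftPiece, Piece.dir]
    rw [dr A l B (by omega), dr2 A l B (by omega), if_pos (by rw [h1]; simp)]

theorem dirs_shift {w : List Piece} {l m : List Bool} (h : dirs w l = some m) (A B : List Bool) :
    dirs (w.map (shiftPiece A.length)) (A ++ (l ++ B)) = some (A ++ (m ++ B)) := by
  induction w generalizing l with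
  | nil =>
    have h' : some l = some m := h
    obtain rfl : l = m := Option.some.inj h'
    rfl
  | cons c w ih =>
    have h' : (c.dir l).bind (dirs w) = some m := h
    obtain ⟨l', h1, h2⟩ := Option.bind_eq_some_iff.mp h'
    show ((shiftPiece A.length c).dir (A ++ (l ++ B))).bind (dirs (w.map (shiftPiece A.length))) = _
    rw [dir_shift h1 A B, Option.bind_some, ih h2]

section

variable {K : Type*} [Field K]

theorem step_shift (α β : K) {c : Piece} {l m : List Bool} (h : c.dir l = some m) (v : List (Fin 4) → K)
    (A B : List (Fin 4)) {r : List (Fin 4)} (hr : r.length = l.length) :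
    step α β (shiftPiece A.length c) v (A ++ (r ++ B)) = step α β c (fun r' => v (A ++ (r' ++ B))) r := by
  cases c with
  | cup j f =>
    simp only [Piece.dir] at h
    split_ifs at h with h1
    simp only [shiftPiece, step]
    rw [tk A r B (by omega), dr A r B (by omega)]
    refine Finset.sum_congr rfl fun i _ => ?_
    simp
  | cap j f =>
    simp only [Piece.dir] at h
    split_ifs at h with h1
    have h2 := congrArg List.length h1
    simp only [List.length_cons, List.length_drop] at h2
    simp only [shiftPiece, step]
    rw [tk A r B (by omega), dr A r B (by omega), dr2 A r B (by omega)]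
    refine Finset.sum_congr rfl fun i _ => ?_
    have e : (r.drop j ++ B = i :: i :: (r.drop (j + 2) ++ B)) ↔ (r.drop j = i :: i :: r.drop (j + 2)) := by
      have e2 : i :: i :: (r.drop (j + 2) ++ B) = (i :: i :: r.drop (j + 2)) ++ B := rfl
      rw [e2, List.append_left_inj]
    simp only [e, List.append_assoc]
  | cross j e =>
    simp only [Piece.dir] at h
    split_ifs at h with h1
    have h2 := congrArg List.length h1
    simp only [List.length_cons, List.length_drop] at h2
    simp only [shiftPiece, step]
    rw [tk A r B (by omega), dr A r B (by omega), dr2 A r B (by omega)]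
    refine Finset.sum_congr rfl fun i _ => ?_
    refine Finset.sum_congr rfl fun i' _ => ?_
    have e : (r.drop j ++ B = i :: i' :: (r.drop (j + 2) ++ B)) ↔ (r.drop j = i :: i' :: r.drop (j + 2)) := by
      have e2 : i :: i' :: (r.drop (j + 2) ++ B) = (i :: i' :: r.drop (j + 2)) ++ B := rfl
      rw [e2, List.append_left_inj]
    simp only [e, List.append_assoc, List.cons_append]

theorem stL_shift (α β : K) {w : List Piece} {l m : List Bool} (h : dirs w l = some m) (v : List (Fin 4) → K)
    (A B : List (Fin 4)) {r : List (Fin 4)} (hr : r.length = l.length) :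
    stL α β (w.map (shiftPiece A.length)) v (A ++ (r ++ B)) = stL α β w (fun r' => v (A ++ (r' ++ B))) r := by
  induction w generalizing l r with
  | nil => rfl
  | cons c w ih =>
    have h' : (c.dir l).bind (dirs w) = some m := h
    obtain ⟨l', h1, h2⟩ := Option.bind_eq_some_iff.mp h'
    show step α β (shiftPiece A.length c) (stL α β (w.map (shiftPiece A.length)) v) (A ++ (r ++ B)) =
      step α β c (stL α β w (fun r' => v (A ++ (r' ++ B)))) r
    rw [step_shift α β h1 _ A B hr]
    exact step_loc α β c h1 (fun r' hr' => ih h2 hr') hr

theorem stL_one (α β : K) (w : List Piece) (h : dirs w [true] = some [true]) (v : List (Fin 4) → K) (i : Fin 4) :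
    stL α β w v [i] = ∑ k, v [k] * stateSum α β w [i] [k] := by
  have h2 : stL α β w v [i] =
      stL α β w (∑ k : Fin 4, v [k] • (fun r : List (Fin 4) => if r = [k] then (1 : K) else 0)) [i] := by
    refine stL_loc α β w h (fun r hr => ?_) rfl
    obtain ⟨k, rfl⟩ := List.length_eq_one_iff.mp (by simpa using hr)
    rw [Finset.sum_apply, Finset.sum_eq_single k]
    · simp
    · intro b _ hb
      have : ¬([k] = [b]) := fun e => hb (by simpa using e.symm)
      simp [this]
    · intro hk
      exact absurd (Finset.mem_univ k) hk
  rw [h2, map_sum, Finset.sum_apply]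
  refine Finset.sum_congr rfl fun k _ => ?_
  rw [map_smul]
  rfl

theorem stL_append (α β : K) (w w' : List Piece) (v : List (Fin 4) → K) :
    stL α β (w ++ w') v = stL α β w (stL α β w' v) := by
  show (w ++ w').foldr (step α β) v = w.foldr (step α β) (w'.foldr (step α β) v)
  rw [List.foldr_append]

end

/-- the Links-Gould polynomial of a connected sum -/
theorem ins {w1 w2 w' : List Piece} {P Q : ℤ × ℤ →₀ ℤ} {A B : List Bool}
    (hd : dirs w1 [true] = some (A ++ true :: B)) (hP : IsLinksGould (w1 ++ w2) P) (hQ : IsLinksGould w' Q) :
    IsLinksGould (w1 ++ (w'.map (shiftPiece A.length) ++ w2)) (mulP P Q) := by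
  have d1 := (isTangle_iff _).mp hP.1
  have d2 := (isTangle_iff w').mp hQ.1
  refine ⟨(isTangle_iff _).mpr ?_, fun α β ha hb i j => ?_⟩
  · rw [dirs_append, hd, Option.bind_some] at d1 ⊢
    have h3 := dirs_shift d2 A B
    have e : A ++ true :: B = A ++ ([true] ++ B) := rfl
    rw [dirs_append, e, h3, Option.bind_some]
    exact d1
  · have hq : ∀ (v : List (Fin 4) → ℂ) (x : Fin 4), stL α β w' v [x] = evalAt Q (α ^ 2) (β ^ 2) * v [x] := by
      intro v x
      rw [stL_one α β w' d2]
      simp only [hQ.2 α β ha hb]
      rw [Finset.sum_eq_single x]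
      · rw [if_pos rfl]; ring
      · intro k _ hk
        rw [if_neg (fun e => hk e.symm), mul_zero]
      · intro hx
        exact absurd (Finset.mem_univ x) hx
    have h4 := hP.2 α β ha hb i j
    have e1 : stateSum α β (w1 ++ w2) [i] [j] =
        stL α β w1 (stL α β w2 (fun r => if r = [j] then 1 else 0)) [i] := by
      rw [← stL_append]
      rfl
    have e2 : stateSum α β (w1 ++ (w'.map (shiftPiece A.length) ++ w2)) [i] [j] =
        stL α β w1 (stL α β (w'.map (shiftPiece A.length)) (stL α β w2 (fun r => if r = [j] then 1 else 0))) [i] := by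
      rw [← stL_append, ← stL_append, List.append_assoc]
      rfl
    have e3 : stL α β w1 (stL α β (w'.map (shiftPiece A.length)) (stL α β w2 (fun r => if r = [j] then 1 else 0))) [i] =
        stL α β w1 (evalAt Q (α ^ 2) (β ^ 2) • (stL α β w2 (fun r => if r = [j] then 1 else 0))) [i] := by
      refine stL_loc α β w1 hd (fun r hr => ?_) rfl
      obtain ⟨a, x, b, rfl, hab⟩ : ∃ (a : List (Fin 4)) (x : Fin 4) (b : List (Fin 4)), r = a ++ ([x] ++ b) ∧
          a.length = A.length := by
        simp only [List.length_append, List.length_cons] at hr
        have hlt : A.length < r.length := by omega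
        refine ⟨r.take A.length, r[A.length], r.drop (A.length + 1), ?_, ?_⟩
        · rw [List.singleton_append, List.getElem_cons_drop, List.take_append_drop]
        · rw [List.length_take]
          omega
      rw [← hab, stL_shift α β d2 _ a b rfl, hq]
      rfl
    rw [e2, e3, map_smul, Pi.smul_apply, ← e1, h4, evalAt_mulP (pow_ne_zero 2 ha) (pow_ne_zero 2 hb), smul_eq_mul]
    split_ifs
    · ring
    · simp

end LG3.CS
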