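import Pool.Agent.Lib.MP_3cd99b_gt.CS.Loc
import Pool.Agent.Lib.MP_3cd99b_gt.P

/-!
Arrays with five diagonals: the exchange inequalities from inequalities between the diagonals.
-/

open Finset Polynomial

namespace LG3.CS

/-- the conditions on the three sequences -/
structure LS (N : ℕ) (g0 g1 g2 : ℕ → ℤ) : Prop where
  n0 : ∀ k, 0 ≤ g0 k
  n1 : ∀ k, 0 ≤ g1 k
  n2 : ∀ k, 0 ≤ g2 k
  z0 : ∀ k, g0 k ≠ 0 ↔ k ≤ N
  z1 : ∀ k, g1 k ≠ 0 ↔ k + 1 ≤ N
  z2 : ∀ k, g2 k ≠ 0 ↔ k + 2 ≤ N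
  i1 : ∀ k, g0 k * g1 (k + 1) ≤ g1 k * g0 (k + 1)
  i2 : ∀ k, g1 k * g2 (k + 1) ≤ g2 k * g1 (k + 1)
  i3 : ∀ k, g1 k * g0 (k + 2) ≤ g0 (k + 1) * g1 (k + 1)
  i4 : ∀ k, g2 k * g1 (k + 2) ≤ g1 (k + 1) * g2 (k + 1)
  i5 : ∀ k, g1 k * g1 k ≤ g0 k * g0 (k + 1)
  i6 : ∀ k, g2 k * g0 (k + 1) ≤ g1 k * g1 (k + 1)

theorem cc {P Q R S U V : ℤ} (hU : 0 < U) (hV : 0 < V) (_ : 0 ≤ P) (hR : 0 ≤ R) (hQ : 0 ≤ Q)
    (h1 : P * U ≤ V * Q) (h2 : V * R ≤ U * S) : P * R ≤ Q * S := by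
  have h3 : (P * U) * (V * R) ≤ (V * Q) * (U * S) :=
    mul_le_mul h1 h2 (mul_nonneg hV.le hR) (mul_nonneg hV.le hQ)
  have h4 : (P * R) * (U * V) ≤ (Q * S) * (U * V) := by linarith
  exact le_of_mul_le_mul_right h4 (mul_pos hU hV)

section

variable {n : ℕ} {G0 G1 G2 : ℤ[X]}

/-- absolute values -/
noncomputable def Ly (n : ℕ) (G0 G1 G2 : ℤ[X]) (z : ℤ × ℤ) : ℤ := |mkP n G0 G1 G2 z|

theorem cfn_nat (f : ℤ[X]) {j : ℤ} {k : ℕ} (h : j = k) : cfn f j = f.coeff k := by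
  subst h
  rw [cfn, if_pos (by omega), Int.toNat_natCast]

theorem E0 {N : ℕ} (H : LS N G0.coeff G1.coeff G2.coeff) {z : ℤ × ℤ} {k : ℕ} (h1 : z.1 = k - n)
    (h2 : z.2 = k - n) : Ly n G0 G1 G2 z = G0.coeff k := by
  rw [Ly, mkP_apply, if_pos (by omega), if_neg (by omega), if_neg (by omega), if_neg (by omega),
    if_neg (by omega), cfn_nat G0 (k := k) (by omega)]
  simp [abs_of_nonneg (H.n0 k)]

theorem E1 {N : ℕ} (H : LS N G0.coeff G1.coeff G2.coeff) {z : ℤ × ℤ} {k : ℕ} (h1 : z.1 = k + 1 - n)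
    (h2 : z.2 = k - n) : Ly n G0 G1 G2 z = G1.coeff k := by
  rw [Ly, mkP_apply, if_neg (by omega), if_pos (by omega), if_neg (by omega), if_neg (by omega),
    if_neg (by omega), cfn_nat G1 (k := k) (by omega)]
  simp [abs_of_nonneg (H.n1 k)]

theorem E1' {N : ℕ} (H : LS N G0.coeff G1.coeff G2.coeff) {z : ℤ × ℤ} {k : ℕ} (h1 : z.1 = k - n)
    (h2 : z.2 = k + 1 - n) : Ly n G0 G1 G2 z = G1.coeff k := by
  rw [Ly, mkP_apply, if_neg (by omega), if_neg (by omega), if_pos (by omega), if_neg (by omega),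
    if_neg (by omega), cfn_nat G1 (k := k) (by omega)]
  simp [abs_of_nonneg (H.n1 k)]

theorem E2 {N : ℕ} (H : LS N G0.coeff G1.coeff G2.coeff) {z : ℤ × ℤ} {k : ℕ} (h1 : z.1 = k + 2 - n)
    (h2 : z.2 = k - n) : Ly n G0 G1 G2 z = G2.coeff k := by
  rw [Ly, mkP_apply, if_neg (by omega), if_neg (by omega), if_neg (by omega), if_pos (by omega),
    if_neg (by omega), cfn_nat G2 (k := k) (by omega)]
  simp [abs_of_nonneg (H.n2 k)]

theorem E2' {N : ℕ} (H : LS N G0.coeff G1.coeff G2.coeff) {z : ℤ × ℤ} {k : ℕ} (h1 : z.1 = k - n)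
    (h2 : z.2 = k + 2 - n) : Ly n G0 G1 G2 z = G2.coeff k := by
  rw [Ly, mkP_apply, if_neg (by omega), if_neg (by omega), if_neg (by omega), if_neg (by omega),
    if_pos (by omega), cfn_nat G2 (k := k) (by omega)]
  simp [abs_of_nonneg (H.n2 k)]

theorem Ly_nn (z : ℤ × ℤ) : 0 ≤ Ly n G0 G1 G2 z := abs_nonneg _

theorem Ly_forms {z : ℤ × ℤ} (h : Ly n G0 G1 G2 z ≠ 0) : ∃ k : ℕ,
    (z.1 = k - n ∧ z.2 = k - n) ∨ (z.1 = k + 1 - n ∧ z.2 = k - n) ∨ (z.1 = k - n ∧ z.2 = k + 1 - n) ∨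
      (z.1 = k + 2 - n ∧ z.2 = k - n) ∨ (z.1 = k - n ∧ z.2 = k + 2 - n) := by
  rw [Ly, abs_ne_zero, mkP_apply] at h
  have neg : ∀ f : ℤ[X], ∀ j : ℤ, j < 0 → cfn f j = 0 := fun f j hj => by rw [cfn, if_neg (by omega)]
  by_cases h0 : z.1 - z.2 = 0
  · by_cases hk : 0 ≤ z.1 + n
    · exact ⟨(z.1 + n).toNat, Or.inl ⟨by omega, by omega⟩⟩
    · rw [if_pos h0, neg _ _ (by omega), if_neg (by omega), if_neg (by omega), if_neg (by omega),
        if_neg (by omega)] at h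
      simp at h
  by_cases h1 : z.1 - z.2 = 1
  · by_cases hk : 0 ≤ z.2 + n
    · exact ⟨(z.2 + n).toNat, Or.inr (Or.inl ⟨by omega, by omega⟩)⟩
    · rw [if_neg h0, if_pos h1, neg _ _ (by omega), if_neg (by omega), if_neg (by omega),
        if_neg (by omega)] at h
      simp at h
  by_cases h2 : z.1 - z.2 = -1
  · by_cases hk : 0 ≤ z.1 + n
    · exact ⟨(z.1 + n).toNat, Or.inr (Or.inr (Or.inl ⟨by omega, by omega⟩))⟩
    · rw [if_neg h0, if_neg h1, if_pos h2, neg _ _ (by omega), if_neg (by omega),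
        if_neg (by omega)] at h
      simp at h
  by_cases h3 : z.1 - z.2 = 2
  · by_cases hk : 0 ≤ z.2 + n
    · exact ⟨(z.2 + n).toNat, Or.inr (Or.inr (Or.inr (Or.inl ⟨by omega, by omega⟩)))⟩
    · rw [if_neg h0, if_neg h1, if_neg h2, if_pos h3, neg _ _ (by omega), if_neg (by omega)] at h
      simp at h
  by_cases h4 : z.1 - z.2 = -2
  · by_cases hk : 0 ≤ z.1 + n
    · exact ⟨(z.1 + n).toNat, Or.inr (Or.inr (Or.inr (Or.inr ⟨by omega, by omega⟩)))⟩
    · rw [if_neg h0, if_neg h1, if_neg h2, if_neg h3, if_pos h4, neg _ _ (by omega)] at h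
      simp at h
  · rw [if_neg h0, if_neg h1, if_neg h2, if_neg h3, if_neg h4] at h
    simp at h

theorem Ly_zero {z : ℤ × ℤ} (h : 3 ≤ z.1 - z.2 ∨ z.1 - z.2 ≤ -3) : Ly n G0 G1 G2 z = 0 := by
  by_contra hn
  obtain ⟨k, hk⟩ := Ly_forms hn
  omega

theorem Ly_supp {N : ℕ} (H : LS N G0.coeff G1.coeff G2.coeff) (z : ℤ × ℤ) :
    Ly n G0 G1 G2 z ≠ 0 ↔ Hex (-n) (N - n) (-n) (N - n) (-2) 2 z := by
  unfold Hex
  constructor
  · intro h
    obtain ⟨k, h1 | h1 | h1 | h1 | h1⟩ := Ly_forms h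
    · rw [E0 H h1.1 h1.2, H.z0] at h
      omega
    · rw [E1 H h1.1 h1.2, H.z1] at h
      omega
    · rw [E1' H h1.1 h1.2, H.z1] at h
      omega
    · rw [E2 H h1.1 h1.2, H.z2] at h
      omega
    · rw [E2' H h1.1 h1.2, H.z2] at h
      omega
  · intro h
    have hd : z.1 - z.2 = 0 ∨ z.1 - z.2 = 1 ∨ z.1 - z.2 = -1 ∨ z.1 - z.2 = 2 ∨ z.1 - z.2 = -2 := by omega
    rcases hd with hd | hd | hd | hd | hd
    · rw [E0 H (k := (z.1 + n).toNat) (by omega) (by omega), H.z0]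
      omega
    · rw [E1 H (k := (z.2 + n).toNat) (by omega) (by omega), H.z1]
      omega
    · rw [E1' H (k := (z.1 + n).toNat) (by omega) (by omega), H.z1]
      omega
    · rw [E2 H (k := (z.2 + n).toNat) (by omega) (by omega), H.z2]
      omega
    · rw [E2' H (k := (z.1 + n).toNat) (by omega) (by omega), H.z2]
      omega

end

section

variable {n N : ℕ} {G0 G1 G2 : ℤ[X]}

theorem r1 (H : LS N G0.coeff G1.coeff G2.coeff) (z : ℤ × ℤ) :
    Ly n G0 G1 G2 z * Ly n G0 G1 G2 (z + (2, 1)) ≤ Ly n G0 G1 G2 (z + (1, 0)) * Ly n G0 G1 G2 (z + (1, 1)) := by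
  by_cases hz : Ly n G0 G1 G2 z = 0
  · rw [hz, zero_mul]
    exact mul_nonneg (Ly_nn _) (Ly_nn _)
  obtain ⟨z1, z2⟩ := z
  simp only [Prod.mk_add_mk]
  obtain ⟨k, ⟨a, b⟩ | ⟨a, b⟩ | ⟨a, b⟩ | ⟨a, b⟩ | ⟨a, b⟩⟩ := Ly_forms hz
  all_goals simp only at a b
  · rw [E0 H (k := k) (by simp only; omega) (by simp only; omega),
      E1 H (k := k + 1) (by simp only; omega) (by simp only; omega),
      E1 H (k := k) (by simp only; omega) (by simp only; omega),
      E0 H (k := k + 1) (by simp only; omega) (by simp only; omega)]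
    exact H.i1 k
  · rw [E1 H (k := k) (by simp only; omega) (by simp only; omega),
      E2 H (k := k + 1) (by simp only; omega) (by simp only; omega),
      E2 H (k := k) (by simp only; omega) (by simp only; omega),
      E1 H (k := k + 1) (by simp only; omega) (by simp only; omega)]
    exact H.i2 k
  · rw [E1' H (k := k) (by simp only; omega) (by simp only; omega),
      E0 H (k := k + 2) (by simp only; omega) (by simp only; omega),
      E0 H (k := k + 1) (by simp only; omega) (by simp only; omega),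
      E1' H (k := k + 1) (by simp only; omega) (by simp only; omega)]
    exact H.i3 k
  · rw [Ly_zero (z := (z1 + 2, z2 + 1)) (by simp only; omega), mul_zero]
    exact mul_nonneg (Ly_nn _) (Ly_nn _)
  · rw [E2' H (k := k) (by simp only; omega) (by simp only; omega),
      E1' H (k := k + 2) (by simp only; omega) (by simp only; omega),
      E1' H (k := k + 1) (by simp only; omega) (by simp only; omega),
      E2' H (k := k + 1) (by simp only; omega) (by simp only; omega)]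
    exact H.i4 k

theorem Ly_swap (H : LS N G0.coeff G1.coeff G2.coeff) (a b : ℤ) :
    Ly n G0 G1 G2 (a, b) = Ly n G0 G1 G2 (b, a) := by
  by_cases h : Ly n G0 G1 G2 (a, b) = 0
  · by_cases h' : Ly n G0 G1 G2 (b, a) = 0
    · rw [h, h']
    · exfalso
      have h1 := (Ly_supp H _).mp h'
      apply (Ly_supp H _).mpr _ h
      unfold Hex at *
      simp only at *
      omega
  obtain ⟨k, ⟨x, y⟩ | ⟨x, y⟩ | ⟨x, y⟩ | ⟨x, y⟩ | ⟨x, y⟩⟩ := Ly_forms h
  all_goals simp only at x y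
  · rw [E0 H (k := k) (by simp only; omega) (by simp only; omega),
      E0 H (k := k) (by simp only; omega) (by simp only; omega)]
  · rw [E1 H (k := k) (by simp only; omega) (by simp only; omega),
      E1' H (k := k) (by simp only; omega) (by simp only; omega)]
  · rw [E1' H (k := k) (by simp only; omega) (by simp only; omega),
      E1 H (k := k) (by simp only; omega) (by simp only; omega)]
  · rw [E2 H (k := k) (by simp only; omega) (by simp only; omega),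
      E2' H (k := k) (by simp only; omega) (by simp only; omega)]
  · rw [E2' H (k := k) (by simp only; omega) (by simp only; omega),
      E2 H (k := k) (by simp only; omega) (by simp only; omega)]

theorem r2 (H : LS N G0.coeff G1.coeff G2.coeff) (z : ℤ × ℤ) :
    Ly n G0 G1 G2 z * Ly n G0 G1 G2 (z + (1, 2)) ≤ Ly n G0 G1 G2 (z + (0, 1)) * Ly n G0 G1 G2 (z + (1, 1)) := by
  obtain ⟨z1, z2⟩ := z
  have h := r1 (n := n) H (z2, z1)
  simp only [Prod.mk_add_mk] at h ⊢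
  rwa [Ly_swap H z2 z1, Ly_swap H (z2 + 2) (z1 + 1), Ly_swap H (z2 + 1) (z1 + 0),
    Ly_swap H (z2 + 1) (z1 + 1)] at h

theorem r3 (H : LS N G0.coeff G1.coeff G2.coeff) (z : ℤ × ℤ) :
    Ly n G0 G1 G2 (z + (1, 0)) * Ly n G0 G1 G2 (z + (0, 1)) ≤ Ly n G0 G1 G2 z * Ly n G0 G1 G2 (z + (1, 1)) := by
  obtain ⟨z1, z2⟩ := z
  simp only [Prod.mk_add_mk]
  by_cases hx : Ly n G0 G1 G2 (z1 + 1, z2 + 0) = 0
  · rw [hx, zero_mul]
    exact mul_nonneg (Ly_nn _) (Ly_nn _)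
  by_cases hy : Ly n G0 G1 G2 (z1 + 0, z2 + 1) = 0
  · rw [hy, mul_zero]
    exact mul_nonneg (Ly_nn _) (Ly_nn _)
  have h1 := (Ly_supp H _).mp hx
  have h2 := (Ly_supp H _).mp hy
  unfold Hex at h1 h2
  simp only at h1 h2
  have hd : z1 - z2 = 0 ∨ z1 - z2 = 1 ∨ z1 - z2 = -1 := by omega
  rcases hd with hd | hd | hd
  · obtain ⟨k, hk⟩ : ∃ k : ℕ, z1 = k - n := ⟨(z1 + n).toNat, by omega⟩
    rw [E1 H (k := k) (by simp only; omega) (by simp only; omega),
      E1' H (k := k) (by simp only; omega) (by simp only; omega),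
      E0 H (k := k) (by simp only; omega) (by simp only; omega),
      E0 H (k := k + 1) (by simp only; omega) (by simp only; omega)]
    exact H.i5 k
  · obtain ⟨k, hk⟩ : ∃ k : ℕ, z2 = k - n := ⟨(z2 + n).toNat, by omega⟩
    rw [E2 H (k := k) (by simp only; omega) (by simp only; omega),
      E0 H (k := k + 1) (by simp only; omega) (by simp only; omega),
      E1 H (k := k) (by simp only; omega) (by simp only; omega),
      E1 H (k := k + 1) (by simp only; omega) (by simp only; omega)]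
    exact H.i6 k
  · obtain ⟨k, hk⟩ : ∃ k : ℕ, z1 = k - n := ⟨(z1 + n).toNat, by omega⟩
    rw [E0 H (k := k + 1) (by simp only; omega) (by simp only; omega),
      E2' H (k := k) (by simp only; omega) (by simp only; omega),
      E1' H (k := k) (by simp only; omega) (by simp only; omega),
      E1' H (k := k + 1) (by simp only; omega) (by simp only; omega), mul_comm]
    exact H.i6 k

theorem LS.pos0 {g0 g1 g2 : ℕ → ℤ} (H : LS N g0 g1 g2) {k : ℕ} (h : k ≤ N) : 0 < g0 k :=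
  lt_of_le_of_ne (H.n0 k) (Ne.symm ((H.z0 k).mpr h))

theorem LS.pos1 {g0 g1 g2 : ℕ → ℤ} (H : LS N g0 g1 g2) {k : ℕ} (h : k + 1 ≤ N) : 0 < g1 k :=
  lt_of_le_of_ne (H.n1 k) (Ne.symm ((H.z1 k).mpr h))

theorem LS.pos2 {g0 g1 g2 : ℕ → ℤ} (H : LS N g0 g1 g2) {k : ℕ} (h : k + 2 ≤ N) : 0 < g2 k :=
  lt_of_le_of_ne (H.n2 k) (Ne.symm ((H.z2 k).mpr h))

theorem LS.q20 {g0 g1 g2 : ℕ → ℤ} (H : LS N g0 g1 g2) (k : ℕ) : g2 k * g0 (k + 2) ≤ g1 (k + 1) * g1 (k + 1) := by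
  by_cases h : k + 2 ≤ N
  · exact cc (H.pos0 (k := k + 1) (by omega)) (H.pos1 (k := k) (by omega)) (H.n2 _) (H.n0 _) (H.n1 _)
      (H.i6 k) (H.i3 k)
  · rw [not_ne_iff.mp (fun h' => h ((H.z0 _).mp h')), mul_zero]
    exact mul_nonneg (H.n1 _) (H.n1 _)

theorem LS.q02 {g0 g1 g2 : ℕ → ℤ} (H : LS N g0 g1 g2) (k : ℕ) : g0 k * g2 k ≤ g1 k * g1 k := by
  by_cases h : k + 2 ≤ N
  · have h1 := H.i1 k
    have h2 := H.i6 k
    have p1 := H.pos0 (k := k + 1) (by omega)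
    have p2 := H.pos1 (k := k + 1) (by omega)
    exact cc (U := g1 (k + 1)) (V := g0 (k + 1)) (S := g1 k) p2 p1 (H.n0 _) (H.n2 _) (H.n1 _)
      (by linarith [mul_comm (g1 k) (g0 (k + 1))])
      (by linarith [mul_comm (g2 k) (g0 (k + 1)), mul_comm (g1 k) (g1 (k + 1))])
  · rw [not_ne_iff.mp (fun h' => h ((H.z2 _).mp h')), mul_zero]
    exact mul_nonneg (H.n1 _) (H.n1 _)

theorem LS.q11 {g0 g1 g2 : ℕ → ℤ} (H : LS N g0 g1 g2) (k : ℕ) :
    g1 k * g1 (k + 1) ≤ g0 (k + 1) * g0 (k + 1) := by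
  by_cases h : k + 2 ≤ N
  · have h1 := H.i3 k
    have h2 := H.i5 (k + 1)
    have p1 := H.pos0 (k := k + 2) (by omega)
    have p2 := H.pos1 (k := k + 1) (by omega)
    exact cc (U := g0 (k + 2)) (V := g1 (k + 1)) p1 p2 (H.n1 _) (H.n1 _) (H.n0 _)
      (by linarith [mul_comm (g0 (k + 1)) (g1 (k + 1))]) (by linarith [mul_comm (g0 (k + 2)) (g0 (k + 1))])
  · rw [not_ne_iff.mp (fun h' => h ((H.z1 (k + 1)).mp h')), mul_zero]
    exact mul_nonneg (H.n0 _) (H.n0 _)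

theorem LS.l0 {g0 g1 g2 : ℕ → ℤ} (H : LS N g0 g1 g2) (k : ℕ) :
    g0 k * g0 (k + 2) ≤ g0 (k + 1) * g0 (k + 1) := by
  by_cases h : k + 2 ≤ N
  · have h1 := H.i1 k
    have h2 := H.i3 k
    have p1 := H.pos1 (k := k + 1) (by omega)
    have p2 := H.pos1 (k := k) (by omega)
    exact cc (U := g1 (k + 1)) (V := g1 k) p1 p2 (H.n0 _) (H.n0 _) (H.n0 _) h1
      (by linarith [mul_comm (g0 (k + 1)) (g1 (k + 1))])
  · rw [not_ne_iff.mp (fun h' => h ((H.z0 _).mp h')), mul_zero]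
    exact mul_nonneg (H.n0 _) (H.n0 _)

theorem LS.l1 {g0 g1 g2 : ℕ → ℤ} (H : LS N g0 g1 g2) (k : ℕ) :
    g1 k * g1 (k + 2) ≤ g1 (k + 1) * g1 (k + 1) := by
  by_cases h : k + 3 ≤ N
  · have h1 := H.i2 k
    have h2 := H.i4 k
    have p1 := H.pos2 (k := k + 1) (by omega)
    have p2 := H.pos2 (k := k) (by omega)
    exact cc (U := g2 (k + 1)) (V := g2 k) p1 p2 (H.n1 _) (H.n1 _) (H.n1 _) h1
      (by linarith [mul_comm (g1 (k + 1)) (g2 (k + 1))])
  · have e : g1 (k + 2) = 0 := not_ne_iff.mp (fun h' => h (by have := (H.z1 (k + 2)).mp h'; omega))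
    rw [e, mul_zero]
    exact mul_nonneg (H.n1 _) (H.n1 _)

theorem LS.l2 {g0 g1 g2 : ℕ → ℤ} (H : LS N g0 g1 g2) (k : ℕ) :
    g2 k * g2 (k + 2) ≤ g2 (k + 1) * g2 (k + 1) := by
  by_cases h : k + 4 ≤ N
  · have h1 := H.i4 k
    have h2 := H.i2 (k + 1)
    have p1 := H.pos1 (k := k + 2) (by omega)
    have p2 := H.pos1 (k := k + 1) (by omega)
    exact cc (U := g1 (k + 2)) (V := g1 (k + 1)) p1 p2 (H.n2 _) (H.n2 _) (H.n2 _) h1
      (by linarith [mul_comm (g2 (k + 1)) (g1 (k + 2))])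
  · have e : g2 (k + 2) = 0 := not_ne_iff.mp (fun h' => h (by have := (H.z2 (k + 2)).mp h'; omega))
    rw [e, mul_zero]
    exact mul_nonneg (H.n2 _) (H.n2 _)

theorem q1 (H : LS N G0.coeff G1.coeff G2.coeff) (z : ℤ × ℤ) :
    Ly n G0 G1 G2 z * Ly n G0 G1 G2 (z + (2, 0)) ≤ Ly n G0 G1 G2 (z + (1, 0)) * Ly n G0 G1 G2 (z + (1, 0)) := by
  by_cases hz : Ly n G0 G1 G2 z = 0
  · rw [hz, zero_mul]
    exact mul_nonneg (Ly_nn _) (Ly_nn _)
  obtain ⟨z1, z2⟩ := z
  simp only [Prod.mk_add_mk]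
  obtain ⟨k, ⟨a, b⟩ | ⟨a, b⟩ | ⟨a, b⟩ | ⟨a, b⟩ | ⟨a, b⟩⟩ := Ly_forms hz
  all_goals simp only at a b
  · rw [E0 H (k := k) (by simp only; omega) (by simp only; omega),
      E2 H (k := k) (by simp only; omega) (by simp only; omega),
      E1 H (k := k) (by simp only; omega) (by simp only; omega)]
    exact H.q02 k
  · rw [Ly_zero (z := (z1 + 2, z2 + 0)) (by simp only; omega), mul_zero]
    exact mul_nonneg (Ly_nn _) (Ly_nn _)
  · rw [E1' H (k := k) (by simp only; omega) (by simp only; omega),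
      E1 H (k := k + 1) (by simp only; omega) (by simp only; omega),
      E0 H (k := k + 1) (by simp only; omega) (by simp only; omega)]
    exact H.q11 k
  · rw [Ly_zero (z := (z1 + 2, z2 + 0)) (by simp only; omega), mul_zero]
    exact mul_nonneg (Ly_nn _) (Ly_nn _)
  · rw [E2' H (k := k) (by simp only; omega) (by simp only; omega),
      E0 H (k := k + 2) (by simp only; omega) (by simp only; omega),
      E1' H (k := k + 1) (by simp only; omega) (by simp only; omega)]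
    exact H.q20 k

theorem q2 (H : LS N G0.coeff G1.coeff G2.coeff) (z : ℤ × ℤ) :
    Ly n G0 G1 G2 z * Ly n G0 G1 G2 (z + (0, 2)) ≤ Ly n G0 G1 G2 (z + (0, 1)) * Ly n G0 G1 G2 (z + (0, 1)) := by
  obtain ⟨z1, z2⟩ := z
  have h := q1 (n := n) H (z2, z1)
  simp only [Prod.mk_add_mk] at h ⊢
  rwa [Ly_swap H z2 z1, Ly_swap H (z2 + 2) (z1 + 0), Ly_swap H (z2 + 1) (z1 + 0)] at h

theorem q3 (H : LS N G0.coeff G1.coeff G2.coeff) (z : ℤ × ℤ) :
    Ly n G0 G1 G2 z * Ly n G0 G1 G2 (z + (2, 2)) ≤ Ly n G0 G1 G2 (z + (1, 1)) * Ly n G0 G1 G2 (z + (1, 1)) := by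
  by_cases hz : Ly n G0 G1 G2 z = 0
  · rw [hz, zero_mul]
    exact mul_nonneg (Ly_nn _) (Ly_nn _)
  obtain ⟨z1, z2⟩ := z
  simp only [Prod.mk_add_mk]
  obtain ⟨k, ⟨a, b⟩ | ⟨a, b⟩ | ⟨a, b⟩ | ⟨a, b⟩ | ⟨a, b⟩⟩ := Ly_forms hz
  all_goals simp only at a b
  · rw [E0 H (k := k) (by simp only; omega) (by simp only; omega),
      E0 H (k := k + 2) (by simp only; omega) (by simp only; omega),
      E0 H (k := k + 1) (by simp only; omega) (by simp only; omega)]
    exact H.l0 k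
  · rw [E1 H (k := k) (by simp only; omega) (by simp only; omega),
      E1 H (k := k + 2) (by simp only; omega) (by simp only; omega),
      E1 H (k := k + 1) (by simp only; omega) (by simp only; omega)]
    exact H.l1 k
  · rw [E1' H (k := k) (by simp only; omega) (by simp only; omega),
      E1' H (k := k + 2) (by simp only; omega) (by simp only; omega),
      E1' H (k := k + 1) (by simp only; omega) (by simp only; omega)]
    exact H.l1 k
  · rw [E2 H (k := k) (by simp only; omega) (by simp only; omega),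
      E2 H (k := k + 2) (by simp only; omega) (by simp only; omega),
      E2 H (k := k + 1) (by simp only; omega) (by simp only; omega)]
    exact H.l2 k
  · rw [E2' H (k := k) (by simp only; omega) (by simp only; omega),
      E2' H (k := k + 2) (by simp only; omega) (by simp only; omega),
      E2' H (k := k + 1) (by simp only; omega) (by simp only; omega)]
    exact H.l2 k

/-- the array of absolute values is in the class -/
theorem LS.lm (H : LS N G0.coeff G1.coeff G2.coeff) (n : ℕ) :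
    LM (fun z => |((mkP n G0 G1 G2 z : ℤ) : ℝ)|) := by
  have e : (fun z => |((mkP n G0 G1 G2 z : ℤ) : ℝ)|) = fun z => ((Ly n G0 G1 G2 z : ℤ) : ℝ) := by
    funext z
    rw [Ly, Int.cast_abs]
  rw [e]
  refine LM_of_local (fun z => by exact_mod_cast Ly_nn z) (s0 := -n) (s1 := N - n) (t0 := -n) (t1 := N - n)
    (d0 := -2) (d1 := 2) (fun z => ?_) (fun z => ?_) (fun z => ?_) (fun z => ?_) (fun z => ?_) (fun z => ?_)
    (fun z => ?_)
  · rw [← Ly_supp (n := n) H z]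
    exact Int.cast_ne_zero
  · exact_mod_cast r1 H z
  · exact_mod_cast r2 H z
  · exact_mod_cast r3 H z
  · exact_mod_cast q1 H z
  · exact_mod_cast q2 H z
  · exact_mod_cast q3 H z

end

end LG3.CS
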