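import Pool.Agent.Lib.MP_3cd99b_gt.CS.Cls

/-!
Local inequalities imply the exchange inequalities.
-/

namespace LG3.CS

/-- the exchange inequality along a sector, from the two local inequalities -/
theorem sector {F : ℤ × ℤ → ℝ} (nn : ∀ z, 0 ≤ F z) (d g1 g2 : ℤ × ℤ)
    (L1 : ∀ z, F z * F (z + g1 + d) ≤ F (z + d) * F (z + g1))
    (L2 : ∀ z, F z * F (z + g2 + d) ≤ F (z + d) * F (z + g2))
    (x : ℤ × ℤ) (a b : ℕ)
    (sup : F x ≠ 0 → F (x + (a : ℤ) • g1 + (b : ℤ) • g2 + d) ≠ 0 → ∀ a' b' : ℕ, a' ≤ a → b' ≤ b →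
      F (x + (a' : ℤ) • g1 + (b' : ℤ) • g2) ≠ 0 ∧ F (x + (a' : ℤ) • g1 + (b' : ℤ) • g2 + d) ≠ 0) :
    F x * F (x + (a : ℤ) • g1 + (b : ℤ) • g2 + d) ≤ F (x + d) * F (x + (a : ℤ) • g1 + (b : ℤ) • g2) := by
  by_cases hx : F x = 0
  · rw [hx, zero_mul]
    exact mul_nonneg (nn _) (nn _)
  by_cases hy : F (x + (a : ℤ) • g1 + (b : ℤ) • g2 + d) = 0
  · rw [hy, mul_zero]
    exact mul_nonneg (nn _) (nn _)
  have S := sup hx hy
  have pos : ∀ a' b' : ℕ, a' ≤ a → b' ≤ b → 0 < F (x + (a' : ℤ) • g1 + (b' : ℤ) • g2) ∧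
      0 < F (x + (a' : ℤ) • g1 + (b' : ℤ) • g2 + d) := fun a' b' ha hb =>
    ⟨lt_of_le_of_ne (nn _) (Ne.symm (S a' b' ha hb).1), lt_of_le_of_ne (nn _) (Ne.symm (S a' b' ha hb).2)⟩
  have stp : ∀ w g : ℤ × ℤ, 0 < F (x + w) → 0 < F (x + w + d) →
      F (x + w) * F (x + w + g + d) ≤ F (x + w + d) * F (x + w + g) →
      F x * F (x + w + d) ≤ F (x + d) * F (x + w) → F x * F (x + w + g + d) ≤ F (x + d) * F (x + w + g) := by
    intro w g h1 h2 h3 h4
    have h5 : (F x * F (x + w + d)) * (F (x + w) * F (x + w + g + d)) ≤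
        (F (x + d) * F (x + w)) * (F (x + w + d) * F (x + w + g)) :=
      mul_le_mul h4 h3 (mul_nonneg (nn _) (nn _)) (mul_nonneg (nn _) (nn _))
    have h6 : (F x * F (x + w + g + d)) * (F (x + w) * F (x + w + d)) ≤
        (F (x + d) * F (x + w + g)) * (F (x + w) * F (x + w + d)) := by linarith
    exact le_of_mul_le_mul_right h6 (mul_pos h1 h2)
  have A : ∀ a' : ℕ, a' ≤ a → F x * F (x + (a' : ℤ) • g1 + ((0 : ℕ) : ℤ) • g2 + d) ≤
      F (x + d) * F (x + (a' : ℤ) • g1 + ((0 : ℕ) : ℤ) • g2) := by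
    intro a'
    induction a' with
    | zero =>
      intro _
      simp only [Nat.cast_zero, zero_smul, add_zero]
      exact (mul_comm _ _).le
    | succ a' ih =>
      intro ha
      have p := pos a' 0 (by omega) (by omega)
      have h := ih (by omega)
      have e : x + ((a' + 1 : ℕ) : ℤ) • g1 + ((0 : ℕ) : ℤ) • g2 =
          x + ((a' : ℤ) • g1 + ((0 : ℕ) : ℤ) • g2) + g1 := by
        push_cast
        rw [add_smul, one_smul]
        abel
      rw [add_assoc x] at p h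
      rw [e]
      exact stp _ g1 p.1 p.2 (L1 _) h
  have B : ∀ b' : ℕ, b' ≤ b → F x * F (x + (a : ℤ) • g1 + (b' : ℤ) • g2 + d) ≤
      F (x + d) * F (x + (a : ℤ) • g1 + (b' : ℤ) • g2) := by
    intro b'
    induction b' with
    | zero =>
      intro _
      exact A a le_rfl
    | succ b' ih =>
      intro hb
      have p := pos a b' (by omega) (by omega)
      have h := ih (by omega)
      have e : x + (a : ℤ) • g1 + ((b' + 1 : ℕ) : ℤ) • g2 =
          x + ((a : ℤ) • g1 + (b' : ℤ) • g2) + g2 := by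
        push_cast
        rw [add_smul, one_smul]
        abel
      rw [add_assoc x] at p h
      rw [e]
      exact stp _ g2 p.1 p.2 (L2 _) h
  exact B b le_rfl

/-- a hexagonal support -/
def Hex (s0 s1 t0 t1 d0 d1 : ℤ) (z : ℤ × ℤ) : Prop :=
  s0 ≤ z.1 ∧ z.1 ≤ s1 ∧ t0 ≤ z.2 ∧ z.2 ≤ t1 ∧ d0 ≤ z.1 - z.2 ∧ z.1 - z.2 ≤ d1

theorem LM_of_local {F : ℤ × ℤ → ℝ} (nn : ∀ z, 0 ≤ F z) {s0 s1 t0 t1 d0 d1 : ℤ}
    (supp : ∀ z, F z ≠ 0 ↔ Hex s0 s1 t0 t1 d0 d1 z)
    (R1 : ∀ z, F z * F (z + (2, 1)) ≤ F (z + (1, 0)) * F (z + (1, 1)))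
    (R2 : ∀ z, F z * F (z + (1, 2)) ≤ F (z + (0, 1)) * F (z + (1, 1)))
    (R3 : ∀ z, F (z + (1, 0)) * F (z + (0, 1)) ≤ F z * F (z + (1, 1)))
    (Q1 : ∀ z, F z * F (z + (2, 0)) ≤ F (z + (1, 0)) * F (z + (1, 0)))
    (Q2 : ∀ z, F z * F (z + (0, 2)) ≤ F (z + (0, 1)) * F (z + (0, 1)))
    (Q3 : ∀ z, F z * F (z + (2, 2)) ≤ F (z + (1, 1)) * F (z + (1, 1))) : LM F := by
  refine ⟨nn, fun i x y h => ?_⟩
  obtain ⟨x1, x2⟩ := x
  obtain ⟨y1, y2⟩ := y
  have key : ∀ (d g1 g2 : ℤ × ℤ) (a b : ℕ), (y1, y2) = (x1, x2) + (a : ℤ) • g1 + (b : ℤ) • g2 + d →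
      (∀ z, F z * F (z + g1 + d) ≤ F (z + d) * F (z + g1)) →
      (∀ z, F z * F (z + g2 + d) ≤ F (z + d) * F (z + g2)) →
      (Hex s0 s1 t0 t1 d0 d1 (x1, x2) → Hex s0 s1 t0 t1 d0 d1 (y1, y2) → ∀ a' b' : ℕ, a' ≤ a → b' ≤ b →
        Hex s0 s1 t0 t1 d0 d1 ((x1, x2) + (a' : ℤ) • g1 + (b' : ℤ) • g2) ∧
        Hex s0 s1 t0 t1 d0 d1 ((x1, x2) + (a' : ℤ) • g1 + (b' : ℤ) • g2 + d)) →
      F (x1, x2) * F (y1, y2) ≤ F ((x1, x2) + d) * F ((y1, y2) - d) := by
    intro d g1 g2 a b e L1 L2 hs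
    have h1 := sector nn d g1 g2 L1 L2 (x1, x2) a b (by
      intro hx hy a' b' ha hb
      rw [← e] at hy
      rw [supp, supp]
      exact hs ((supp _).mp hx) ((supp _).mp hy) a' b' ha hb)
    rw [e, add_sub_cancel_right]
    exact h1
  fin_cases i
  · have h' : 0 < y1 - x1 ∧ y2 - x2 < y1 - x1 := h
    by_cases hw : 0 ≤ y2 - x2
    · refine key (1, 0) (1, 0) (1, 1) (y1 - x1 - 1 - (y2 - x2)).toNat (y2 - x2).toNat ?_ ?_ ?_ ?_
      · rw [Int.toNat_of_nonneg (by omega), Int.toNat_of_nonneg (by omega)]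
        ext <;> simp <;> omega
      · intro z
        rw [show z + (1, 0) + (1, 0) = z + (2, 0) by rw [add_assoc]; rfl]
        exact Q1 z
      · intro z
        rw [show z + (1, 1) + (1, 0) = z + (2, 1) by rw [add_assoc]; rfl]
        exact R1 z
      · intro hx hy a' b' ha hb
        simp only [Hex, Prod.smul_mk, smul_eq_mul, Prod.mk_add_mk] at *
        omega
    · refine key (1, 0) (1, 0) (0, -1) (y1 - x1 - 1).toNat (-(y2 - x2)).toNat ?_ ?_ ?_ ?_
      · rw [Int.toNat_of_nonneg (by omega), Int.toNat_of_nonneg (by omega)]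
        ext <;> simp <;> omega
      · intro z
        rw [show z + (1, 0) + (1, 0) = z + (2, 0) by rw [add_assoc]; rfl]
        exact Q1 z
      · intro z
        have h1 := R3 (z + (0, -1))
        rw [show z + (0, -1) + (0, 1) = z by rw [add_assoc]; simp,
          show z + (0, -1) + (1, 1) = z + (1, 0) by rw [add_assoc]; rfl] at h1
        linarith [mul_comm (F z) (F (z + (0, -1) + (1, 0))), mul_comm (F (z + (0, -1))) (F (z + (1, 0)))]
      · intro hx hy a' b' ha hb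
        simp only [Hex, Prod.smul_mk, smul_eq_mul, Prod.mk_add_mk] at *
        omega
  · have h' : 0 < y2 - x2 ∧ y1 - x1 < y2 - x2 := h
    by_cases hw : 0 ≤ y1 - x1
    · refine key (0, 1) (0, 1) (1, 1) (y2 - x2 - 1 - (y1 - x1)).toNat (y1 - x1).toNat ?_ ?_ ?_ ?_
      · rw [Int.toNat_of_nonneg (by omega), Int.toNat_of_nonneg (by omega)]
        ext <;> simp <;> omega
      · intro z
        rw [show z + (0, 1) + (0, 1) = z + (0, 2) by rw [add_assoc]; rfl]
        exact Q2 z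
      · intro z
        rw [show z + (1, 1) + (0, 1) = z + (1, 2) by rw [add_assoc]; rfl]
        exact R2 z
      · intro hx hy a' b' ha hb
        simp only [Hex, Prod.smul_mk, smul_eq_mul, Prod.mk_add_mk] at *
        omega
    · refine key (0, 1) (0, 1) (-1, 0) (y2 - x2 - 1).toNat (-(y1 - x1)).toNat ?_ ?_ ?_ ?_
      · rw [Int.toNat_of_nonneg (by omega), Int.toNat_of_nonneg (by omega)]
        ext <;> simp <;> omega
      · intro z
        rw [show z + (0, 1) + (0, 1) = z + (0, 2) by rw [add_assoc]; rfl]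
        exact Q2 z
      · intro z
        have h1 := R3 (z + (-1, 0))
        rw [show z + (-1, 0) + (1, 0) = z by rw [add_assoc]; simp,
          show z + (-1, 0) + (1, 1) = z + (0, 1) by rw [add_assoc]; rfl] at h1
        linarith [mul_comm (F z) (F (z + (-1, 0) + (0, 1))), mul_comm (F (z + (-1, 0))) (F (z + (0, 1)))]
      · intro hx hy a' b' ha hb
        simp only [Hex, Prod.smul_mk, smul_eq_mul, Prod.mk_add_mk] at *
        omega
  · have h' : 0 < y1 - x1 ∧ 0 < y2 - x2 := h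
    by_cases hw : y2 - x2 ≤ y1 - x1
    · refine key (1, 1) (1, 1) (1, 0) (y2 - x2 - 1).toNat (y1 - x1 - (y2 - x2)).toNat ?_ ?_ ?_ ?_
      · rw [Int.toNat_of_nonneg (by omega), Int.toNat_of_nonneg (by omega)]
        ext <;> simp <;> omega
      · intro z
        rw [show z + (1, 1) + (1, 1) = z + (2, 2) by rw [add_assoc]; rfl]
        exact Q3 z
      · intro z
        rw [show z + (1, 0) + (1, 1) = z + (2, 1) by rw [add_assoc]; rfl]
        linarith [R1 z, mul_comm (F (z + (1, 0))) (F (z + (1, 1)))]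
      · intro hx hy a' b' ha hb
        simp only [Hex, Prod.smul_mk, smul_eq_mul, Prod.mk_add_mk] at *
        omega
    · refine key (1, 1) (1, 1) (0, 1) (y1 - x1 - 1).toNat (y2 - x2 - (y1 - x1)).toNat ?_ ?_ ?_ ?_
      · rw [Int.toNat_of_nonneg (by omega), Int.toNat_of_nonneg (by omega)]
        ext <;> simp <;> omega
      · intro z
        rw [show z + (1, 1) + (1, 1) = z + (2, 2) by rw [add_assoc]; rfl]
        exact Q3 z
      · intro z
        rw [show z + (0, 1) + (1, 1) = z + (1, 2) by rw [add_assoc]; rfl]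
        linarith [R2 z, mul_comm (F (z + (0, 1))) (F (z + (1, 1)))]
      · intro hx hy a' b' ha hb
        simp only [Hex, Prod.smul_mk, smul_eq_mul, Prod.mk_add_mk] at *
        omega

end LG3.CS
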