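import Pool.Agent.Lib.MP_3cd99b_gt.CS.Num1

/-!
Inequalities between the closed forms (i6).
-/

namespace LG3.CS

theorem i6_ge_ge {a b s : ℕ} (ha : 1 ≤ a) (hb : 1 ≤ b) (hK : s + 2 ≤ a + b) (hA : s + 2 ≤ a)
    (hB : s + 2 ≤ b) :
    ww a b (s + 1) * v0 a b s ≤ v1 a b s * v1 a b (s + 1) := by
  have w0 := ww_ll (a := a) (b := b) (K := s) (by omega) (by omega)
  have h0 := hh_ll (a := a) (b := b) (K := s) (by omega) (by omega)
  have w1 := ww_ll (a := a) (b := b) (K := s + 1) (by omega) (by omega)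
  have h1 := hh_ll (a := a) (b := b) (K := s + 1) (by omega) (by omega)
  have w2 := ww_ll (a := a) (b := b) (K := s + 2) (by omega) (by omega)
  have h2 := hh_ll (a := a) (b := b) (K := s + 2) (by omega) (by omega)
  have d1 : (if s + 1 = b then (3 : ℤ) else 0) = 0 := if_neg (by omega)
  simp only [v0, v1, Nat.add_assoc, Nat.reduceAdd, w0, h0, w1, h1, w2, h2, d1]
  obtain ⟨x, y, z, rfl, rfl, rfl⟩ : ∃ x y z, a = x + y + 2 ∧ b = x + z + 2 ∧ s = x :=
    ⟨s - 0, a - (s + 2), b - (s + 2), by omega, by omega, by omega⟩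
  rw [← sub_nonneg]
  push_cast
  ring_nf
  positivity

theorem i6_ge_p0 {a b s : ℕ} (ha : 1 ≤ a) (hb : 1 ≤ b) (hK : s + 2 ≤ a + b) (hA : s + 2 ≤ a)
    (hB : b = s + 1) :
    ww a b (s + 1) * v0 a b s ≤ v1 a b s * v1 a b (s + 1) := by
  have w0 := ww_ll (a := a) (b := b) (K := s) (by omega) (by omega)
  have h0 := hh_ll (a := a) (b := b) (K := s) (by omega) (by omega)
  have w1 := ww_ll (a := a) (b := b) (K := s + 1) (by omega) (by omega)
  have h1 := hh_ll (a := a) (b := b) (K := s + 1) (by omega) (by omega)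
  have w2 := ww_lh (a := a) (b := b) (K := s + 2) (by omega) (by omega)
  have h2 := hh_lh (a := a) (b := b) (K := s + 2) (by omega) (by omega)
  have d1 : (if s + 1 = b then (3 : ℤ) else 0) = 3 := if_pos (by omega)
  simp only [v0, v1, Nat.add_assoc, Nat.reduceAdd, w0, h0, w1, h1, w2, h2, d1]
  obtain ⟨x, y, z, rfl, rfl, rfl⟩ : ∃ x y z, a = x + y + 2 ∧ b = x + 1 ∧ s = x :=
    ⟨s - 0, a - (s + 2), 0, by omega, by omega, by omega⟩
  rw [← sub_nonneg]
  push_cast
  ring_nf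
  positivity

theorem i6_ge_le {a b s : ℕ} (ha : 1 ≤ a) (hb : 1 ≤ b) (hK : s + 2 ≤ a + b) (hA : s + 2 ≤ a)
    (hB : b ≤ s) :
    ww a b (s + 1) * v0 a b s ≤ v1 a b s * v1 a b (s + 1) := by
  have w0 := ww_lh (a := a) (b := b) (K := s) (by omega) (by omega)
  have h0 := hh_lh (a := a) (b := b) (K := s) (by omega) (by omega)
  have w1 := ww_lh (a := a) (b := b) (K := s + 1) (by omega) (by omega)
  have h1 := hh_lh (a := a) (b := b) (K := s + 1) (by omega) (by omega)
  have w2 := ww_lh (a := a) (b := b) (K := s + 2) (by omega) (by omega)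
  have h2 := hh_lh (a := a) (b := b) (K := s + 2) (by omega) (by omega)
  have d1 : (if s + 1 = b then (3 : ℤ) else 0) = 0 := if_neg (by omega)
  simp only [v0, v1, Nat.add_assoc, Nat.reduceAdd, w0, h0, w1, h1, w2, h2, d1]
  obtain ⟨x, y, z, rfl, rfl, rfl⟩ : ∃ x y z, a = x + y + z + 3 ∧ b = z + 1 ∧ s = x + z + 1 :=
    ⟨s + 1 - (b + 1), a - (s + 2), b - 1, by omega, by omega, by omega⟩
  rw [← sub_nonneg]
  push_cast
  ring_nf
  positivity

theorem i6_p0_ge {a b s : ℕ} (ha : 1 ≤ a) (hb : 1 ≤ b) (hK : s + 2 ≤ a + b) (hA : a = s + 1)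
    (hB : s + 2 ≤ b) :
    ww a b (s + 1) * v0 a b s ≤ v1 a b s * v1 a b (s + 1) := by
  have w0 := ww_ll (a := a) (b := b) (K := s) (by omega) (by omega)
  have h0 := hh_ll (a := a) (b := b) (K := s) (by omega) (by omega)
  have w1 := ww_ll (a := a) (b := b) (K := s + 1) (by omega) (by omega)
  have h1 := hh_ll (a := a) (b := b) (K := s + 1) (by omega) (by omega)
  have w2 := ww_hl (a := a) (b := b) (K := s + 2) (by omega) (by omega)
  have h2 := hh_hl (a := a) (b := b) (K := s + 2) (by omega) (by omega)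
  have d1 : (if s + 1 = b then (3 : ℤ) else 0) = 0 := if_neg (by omega)
  simp only [v0, v1, Nat.add_assoc, Nat.reduceAdd, w0, h0, w1, h1, w2, h2, d1]
  obtain ⟨x, y, z, rfl, rfl, rfl⟩ : ∃ x y z, a = x + 1 ∧ b = x + z + 2 ∧ s = x :=
    ⟨s - 0, 0, b - (s + 2), by omega, by omega, by omega⟩
  rw [← sub_nonneg]
  push_cast
  ring_nf
  positivity

theorem i6_p0_p0 {a b s : ℕ} (ha : 1 ≤ a) (hb : 1 ≤ b) (hK : s + 2 ≤ a + b) (hA : a = s + 1)
    (hB : b = s + 1) :
    ww a b (s + 1) * v0 a b s ≤ v1 a b s * v1 a b (s + 1) := by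
  have w0 := ww_ll (a := a) (b := b) (K := s) (by omega) (by omega)
  have h0 := hh_ll (a := a) (b := b) (K := s) (by omega) (by omega)
  have w1 := ww_ll (a := a) (b := b) (K := s + 1) (by omega) (by omega)
  have h1 := hh_ll (a := a) (b := b) (K := s + 1) (by omega) (by omega)
  have w2 := ww_hh (a := a) (b := b) (K := s + 2) (by omega) (by omega) (by omega)
  have h2 := hh_hh (a := a) (b := b) (K := s + 2) (by omega) (by omega) (by omega)
  have d1 : (if s + 1 = b then (3 : ℤ) else 0) = 3 := if_pos (by omega)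
  simp only [v0, v1, Nat.add_assoc, Nat.reduceAdd, w0, h0, w1, h1, w2, h2, d1]
  obtain ⟨x, y, z, rfl, rfl, rfl⟩ : ∃ x y z, a = x + 1 ∧ b = x + 1 ∧ s = x :=
    ⟨s - 0, 0, 0, by omega, by omega, by omega⟩
  rw [← sub_nonneg]
  push_cast
  ring_nf
  positivity

theorem i6_p0_le {a b s : ℕ} (ha : 1 ≤ a) (hb : 1 ≤ b) (hK : s + 2 ≤ a + b) (hA : a = s + 1)
    (hB : b ≤ s) :
    ww a b (s + 1) * v0 a b s ≤ v1 a b s * v1 a b (s + 1) := by
  have w0 := ww_lh (a := a) (b := b) (K := s) (by omega) (by omega)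
  have h0 := hh_lh (a := a) (b := b) (K := s) (by omega) (by omega)
  have w1 := ww_lh (a := a) (b := b) (K := s + 1) (by omega) (by omega)
  have h1 := hh_lh (a := a) (b := b) (K := s + 1) (by omega) (by omega)
  have w2 := ww_hh (a := a) (b := b) (K := s + 2) (by omega) (by omega) (by omega)
  have h2 := hh_hh (a := a) (b := b) (K := s + 2) (by omega) (by omega) (by omega)
  have d1 : (if s + 1 = b then (3 : ℤ) else 0) = 0 := if_neg (by omega)
  simp only [v0, v1, Nat.add_assoc, Nat.reduceAdd, w0, h0, w1, h1, w2, h2, d1]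
  obtain ⟨x, y, z, rfl, rfl, rfl⟩ : ∃ x y z, a = x + z + 2 ∧ b = z + 1 ∧ s = x + z + 1 :=
    ⟨s + 1 - (b + 1), 0, b - 1, by omega, by omega, by omega⟩
  rw [← sub_nonneg]
  push_cast
  ring_nf
  positivity

theorem i6_le_ge {a b s : ℕ} (ha : 1 ≤ a) (hb : 1 ≤ b) (hK : s + 2 ≤ a + b) (hA : a ≤ s)
    (hB : s + 2 ≤ b) :
    ww a b (s + 1) * v0 a b s ≤ v1 a b s * v1 a b (s + 1) := by
  have w0 := ww_hl (a := a) (b := b) (K := s) (by omega) (by omega)
  have h0 := hh_hl (a := a) (b := b) (K := s) (by omega) (by omega)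
  have w1 := ww_hl (a := a) (b := b) (K := s + 1) (by omega) (by omega)
  have h1 := hh_hl (a := a) (b := b) (K := s + 1) (by omega) (by omega)
  have w2 := ww_hl (a := a) (b := b) (K := s + 2) (by omega) (by omega)
  have h2 := hh_hl (a := a) (b := b) (K := s + 2) (by omega) (by omega)
  have d1 : (if s + 1 = b then (3 : ℤ) else 0) = 0 := if_neg (by omega)
  simp only [v0, v1, Nat.add_assoc, Nat.reduceAdd, w0, h0, w1, h1, w2, h2, d1]
  obtain ⟨x, y, z, rfl, rfl, rfl⟩ : ∃ x y z, a = y + 1 ∧ b = x + y + z + 3 ∧ s = x + y + 1 :=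
    ⟨s + 1 - (a + 1), a - 1, b - (s + 2), by omega, by omega, by omega⟩
  rw [← sub_nonneg]
  push_cast
  ring_nf
  positivity

theorem i6_le_p0 {a b s : ℕ} (ha : 1 ≤ a) (hb : 1 ≤ b) (hK : s + 2 ≤ a + b) (hA : a ≤ s)
    (hB : b = s + 1) :
    ww a b (s + 1) * v0 a b s ≤ v1 a b s * v1 a b (s + 1) := by
  have w0 := ww_hl (a := a) (b := b) (K := s) (by omega) (by omega)
  have h0 := hh_hl (a := a) (b := b) (K := s) (by omega) (by omega)
  have w1 := ww_hl (a := a) (b := b) (K := s + 1) (by omega) (by omega)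
  have h1 := hh_hl (a := a) (b := b) (K := s + 1) (by omega) (by omega)
  have w2 := ww_hh (a := a) (b := b) (K := s + 2) (by omega) (by omega) (by omega)
  have h2 := hh_hh (a := a) (b := b) (K := s + 2) (by omega) (by omega) (by omega)
  have d1 : (if s + 1 = b then (3 : ℤ) else 0) = 3 := if_pos (by omega)
  simp only [v0, v1, Nat.add_assoc, Nat.reduceAdd, w0, h0, w1, h1, w2, h2, d1]
  obtain ⟨x, y, z, rfl, rfl, rfl⟩ : ∃ x y z, a = y + 1 ∧ b = x + y + 2 ∧ s = x + y + 1 :=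
    ⟨s + 1 - (a + 1), a - 1, 0, by omega, by omega, by omega⟩
  rw [← sub_nonneg]
  push_cast
  ring_nf
  positivity

theorem i6_le_le {a b s : ℕ} (ha : 1 ≤ a) (hb : 1 ≤ b) (hK : s + 2 ≤ a + b) (hA : a ≤ s)
    (hB : b ≤ s) :
    ww a b (s + 1) * v0 a b s ≤ v1 a b s * v1 a b (s + 1) := by
  have w0 := ww_hh (a := a) (b := b) (K := s) (by omega) (by omega) (by omega)
  have h0 := hh_hh (a := a) (b := b) (K := s) (by omega) (by omega) (by omega)
  have w1 := ww_hh (a := a) (b := b) (K := s + 1) (by omega) (by omega) (by omega)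
  have h1 := hh_hh (a := a) (b := b) (K := s + 1) (by omega) (by omega) (by omega)
  have w2 := ww_hh (a := a) (b := b) (K := s + 2) (by omega) (by omega) (by omega)
  have h2 := hh_hh (a := a) (b := b) (K := s + 2) (by omega) (by omega) (by omega)
  have d1 : (if s + 1 = b then (3 : ℤ) else 0) = 0 := if_neg (by omega)
  simp only [v0, v1, Nat.add_assoc, Nat.reduceAdd, w0, h0, w1, h1, w2, h2, d1]
  obtain ⟨x, y, z, rfl, rfl, rfl⟩ : ∃ x y z, a = y + z + 2 ∧ b = x + z + 2 ∧ s = x + y + z + 2 :=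
    ⟨s + 1 - (a + 1), s + 1 - (b + 1), a + b - (s + 2), by omega, by omega, by omega⟩
  rw [← sub_nonneg]
  push_cast
  ring_nf
  positivity

end LG3.CS
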