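import Pool.Agent.Lib.MP_3cd99b_gt.F1b

/-!
Closed forms for the coefficients of the two-bridge family.
-/

open Finset Polynomial

namespace LG3.CS

/-- coefficients of H1, index shifted by one -/
def hh (a b K : ℕ) : ℤ :=
  if K ≤ a then (if K ≤ b then (K : ℤ) else b)
  else if K ≤ b then (a : ℤ) else if K ≤ a + b then (a : ℤ) + b - K else 0

/-- three times the coefficients of P1, index shifted by one -/
def ww (a b K : ℕ) : ℤ :=
  if K ≤ a then
    (if K ≤ b then (K : ℤ) * (4 * K ^ 2 + 6 * (a - K) * K - 1) else (b : ℤ) * (4 * b ^ 2 + 6 * (a - K) * b - 1))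
  else if K ≤ b then (a : ℤ) * (4 * a ^ 2 + 6 * (K - a) * a - 1)
    else if K ≤ a + b then ((a : ℤ) + b - K) * (4 * (a + b - K) ^ 2 + 6 * (K - a) * (a + b - K) - 1) else 0

theorem hh_ll {a b K : ℕ} (h1 : K ≤ a) (h2 : K ≤ b) : hh a b K = K := by rw [hh, if_pos h1, if_pos h2]

theorem ww_ll {a b K : ℕ} (h1 : K ≤ a) (h2 : K ≤ b) :
    ww a b K = (K : ℤ) * (4 * K ^ 2 + 6 * (a - K) * K - 1) := by rw [ww, if_pos h1, if_pos h2]

theorem hh_lh {a b K : ℕ} (h1 : K ≤ a) (h2 : b ≤ K) : hh a b K = b := by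
  rcases h2.eq_or_lt with rfl | h2
  · rw [hh_ll h1 le_rfl]
  · rw [hh, if_pos h1, if_neg (by omega)]

theorem ww_lh {a b K : ℕ} (h1 : K ≤ a) (h2 : b ≤ K) :
    ww a b K = (b : ℤ) * (4 * b ^ 2 + 6 * (a - K) * b - 1) := by
  rcases h2.eq_or_lt with rfl | h2
  · rw [ww_ll h1 le_rfl]
  · rw [ww, if_pos h1, if_neg (by omega)]

theorem hh_hl {a b K : ℕ} (h1 : a ≤ K) (h2 : K ≤ b) : hh a b K = a := by
  rcases h1.eq_or_lt with rfl | h1
  · rw [hh_ll le_rfl h2]
  · rw [hh, if_neg (by omega), if_pos h2]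

theorem ww_hl {a b K : ℕ} (h1 : a ≤ K) (h2 : K ≤ b) :
    ww a b K = (a : ℤ) * (4 * a ^ 2 + 6 * (K - a) * a - 1) := by
  rcases h1.eq_or_lt with rfl | h1
  · rw [ww_ll le_rfl h2]
  · rw [ww, if_neg (by omega), if_pos h2]

theorem hh_hh {a b K : ℕ} (h1 : a ≤ K) (h2 : b ≤ K) (h3 : K ≤ a + b) : hh a b K = (a : ℤ) + b - K := by
  rcases h1.eq_or_lt with rfl | h1
  · rw [hh_lh le_rfl h2]
    ring
  · rcases h2.eq_or_lt with rfl | h2
    · rw [hh_hl h1.le le_rfl]
      ring
    · rw [hh, if_neg (by omega), if_neg (by omega), if_pos h3]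

theorem ww_hh {a b K : ℕ} (h1 : a ≤ K) (h2 : b ≤ K) (h3 : K ≤ a + b) :
    ww a b K = ((a : ℤ) + b - K) * (4 * (a + b - K) ^ 2 + 6 * (K - a) * (a + b - K) - 1) := by
  rcases h1.eq_or_lt with rfl | h1
  · rw [ww_lh le_rfl h2]
    ring
  · rcases h2.eq_or_lt with rfl | h2
    · rw [ww_hl h1.le le_rfl]
      ring
    · rw [ww, if_neg (by omega), if_neg (by omega), if_pos h3]

theorem hh_out {a b K : ℕ} (h : a + b ≤ K) : hh a b K = 0 := by
  rcases h.eq_or_lt with rfl | h
  · rw [hh_hh (by omega) (by omega) le_rfl]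
    push_cast
    ring
  · by_cases h1 : K ≤ a
    · omega
    · rw [hh, if_neg h1, if_neg (by omega), if_neg (by omega)]

theorem ww_out {a b K : ℕ} (h : a + b ≤ K) : ww a b K = 0 := by
  rcases h.eq_or_lt with rfl | h
  · rw [ww_hh (by omega) (by omega) le_rfl]
    push_cast
    ring
  · by_cases h1 : K ≤ a
    · omega
    · rw [ww, if_neg h1, if_neg (by omega), if_neg (by omega)]

theorem bP_succ' (n : ℕ) : bP (n + 1) = bP n + X ^ n := by
  induction n with
  | zero => simp [bP]
  | succ n ih =>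
    have h2 : bP (n + 2) = 1 + X * bP (n + 1) := rfl
    have h3 : bP (n + 1) = 1 + X * bP n := rfl
    linear_combination h2 + X * ih - h3

theorem tP_succ' (n : ℕ) : tP (n + 1) = tP n + ((n : ℤ[X]) + 1) * X ^ n := by
  induction n with
  | zero => simp [tP, bP]
  | succ n ih =>
    have h1 := bP_succ' (n + 1)
    have h2 : tP (n + 2) = bP (n + 2) + X * tP (n + 1) := rfl
    have h3 : tP (n + 1) = bP (n + 1) + X * tP n := rfl
    rw [h2, ih, h1]
    push_cast
    linear_combination (-1 : ℤ[X]) * h3 + ih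

theorem TP_succ' (n : ℕ) : TP (n + 1) = TP n + (2 * (n : ℤ[X]) + 1) * X ^ n := by
  rw [TP, TP, tP_succ', bP_succ']
  ring

theorem bP_coeff (n k : ℕ) : (bP n).coeff k = if k < n then 1 else 0 := by
  induction n with
  | zero => simp [bP]
  | succ n ih =>
    rw [bP_succ', coeff_add, ih, coeff_X_pow]
    split_ifs <;> omega

theorem sP_coeff (n k : ℕ) : (sP n).coeff k = if k < n then (n : ℤ) - k else 0 := by
  induction n with
  | zero => simp [sP]
  | succ n ih =>
    rw [sP, coeff_add, ih, bP_coeff]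
    split_ifs <;> push_cast <;> omega

theorem RP_coeff (m k : ℕ) : (RP m).coeff k = if k ≤ m then 2 * ((m : ℤ) - k) + 1 else 0 := by
  rw [RP, coeff_add, coeff_two_mul, sP_coeff, bP_coeff]
  split_ifs <;> omega

theorem H1_coeff (m n k : ℕ) : (H1 m n).coeff k = hh (m + 1) n (k + 1) := by
  induction n with
  | zero =>
    rw [H1, bP, mul_zero, coeff_zero]
    by_cases h : k + 1 ≤ m + 1
    · rw [hh_lh h (by omega)]
      simp
    · rw [hh_out (by omega)]
  | succ n ih =>
    have e : H1 m (n + 1) = H1 m n + X ^ n * bP (m + 1) := by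
      rw [H1, H1, bP_succ' n]
      ring
    rw [e, coeff_add, ih, coeff_X_pow_mul', bP_coeff]
    unfold hh
    split_ifs <;> push_cast <;> omega

theorem P1_coeff (m n k : ℕ) : 3 * (P1 m n).coeff k = ww (m + 1) n (k + 1) := by
  induction n with
  | zero =>
    have : P1 m 0 = 0 := by rw [P1, TP, tP, bP]; ring
    rw [this, coeff_zero]
    by_cases h : k + 1 ≤ m + 1
    · rw [ww_lh h (by omega)]
      simp
    · rw [ww_out (by omega)]
      simp
  | succ n ih =>
    have e : P1 m (n + 1) = P1 m n + X ^ n * (((2 * (n : ℤ) + 1 : ℤ) : ℤ[X]) * RP m) := by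
      rw [P1, P1, TP_succ']
      push_cast
      ring
    rw [e, coeff_add, mul_add, ih, coeff_X_pow_mul', ← C_eq_intCast, coeff_C_mul, RP_coeff]
    by_cases h1 : n ≤ k
    · obtain ⟨j, rfl⟩ : ∃ j, k = n + j := ⟨k - n, by omega⟩
      rw [if_pos h1, show n + j - n = j by omega]
      by_cases h2 : j ≤ m
      · rw [if_pos h2]
        by_cases h3 : n + j + 1 ≤ m + 1
        · rw [ww_lh h3 (by omega)]
          by_cases h4 : j = 0
          · subst h4
            rw [ww_ll h3 (by omega)]
            push_cast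
            ring
          · rw [ww_lh h3 (by omega)]
            push_cast
            ring
        · rw [ww_hh (by omega) (by omega) (by omega)]
          by_cases h4 : j = 0
          · subst h4
            rw [ww_hl (by omega) (by omega)]
            push_cast
            ring
          · rw [ww_hh (by omega) (by omega) (by omega)]
            push_cast
            ring
      · rw [if_neg h2, ww_out (by omega), ww_out (by omega)]
        simp
    · rw [if_neg h1]
      by_cases h3 : k + 1 ≤ m + 1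
      · rw [ww_ll h3 (by omega), ww_ll h3 (by omega)]
        ring
      · rw [ww_hl (by omega) (by omega), ww_hl (by omega) (by omega)]
        ring

end LG3.CS
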