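import Pool.Agent.Lib.MP_3cd99b_gt.CS.Num0

/-!
Inequalities between the closed forms (definitions).
-/

namespace LG3.CS

/-- three times the main diagonal, index shifted by one -/
def v0 (a b s : ℕ) : ℤ :=
  (ww a b (s + 2) + 3 * hh a b (s + 2)) + 2 * (ww a b (s + 1) + 3 * hh a b (s + 1)) +
    (ww a b s + 3 * hh a b s) + 2 * ww a b (s + 1) + (if s + 1 = b then 3 else 0)

/-- three times the next diagonal -/
def v1 (a b s : ℕ) : ℤ := 2 * ww a b (s + 1) + 3 * hh a b (s + 1) + (2 * ww a b s + 3 * hh a b s)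

end LG3.CS
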