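import Pool.Agent.Lib.MP_3cd99b_gt.CS.N1
import Pool.Agent.Lib.MP_3cd99b_gt.CS.N2
import Pool.Agent.Lib.MP_3cd99b_gt.CS.N3
import Pool.Agent.Lib.MP_3cd99b_gt.CS.N4
import Pool.Agent.Lib.MP_3cd99b_gt.CS.N5
import Pool.Agent.Lib.MP_3cd99b_gt.CS.N6
import Pool.Agent.Lib.MP_3cd99b_gt.CS.Lay

/-!
The conditions on the diagonals for the two-bridge family.
-/

namespace LG3.CS

/-- three times the first entry of the main diagonal -/
def c0 (a b : ℕ) : ℤ :=
  (ww a b 1 + 3 * hh a b 1) + 2 * (ww a b 0 + 3 * hh a b 0) + 2 * ww a b 0 + (if 0 = b then 3 else 0)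

theorem hh_nn (a b K : ℕ) : 0 ≤ hh a b K := by
  unfold hh
  split_ifs <;> omega

theorem poly_pos {D g : ℤ} (hD : 1 ≤ D) (hg : 0 ≤ g) : 0 < D * (4 * D ^ 2 + 6 * g * D - 1) := by
  have h1 : 1 ≤ D ^ 2 := by nlinarith
  have h2 : 0 ≤ 6 * g * D := by positivity
  have h3 : 0 < 4 * D ^ 2 + 6 * g * D - 1 := by linarith
  exact mul_pos (by linarith) h3

theorem poly_nn {D g : ℤ} (hD : 0 ≤ D) (hg : 0 ≤ g) : 0 ≤ D * (4 * D ^ 2 + 6 * g * D - 1) := by
  rcases hD.eq_or_lt with rfl | h
  · simp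
  · exact (poly_pos h hg).le

theorem ww_nn (a b K : ℕ) : 0 ≤ ww a b K := by
  unfold ww
  split_ifs with h1 h2 h3 h4
  · exact poly_nn (by omega) (by omega)
  · exact poly_nn (by omega) (by omega)
  · exact poly_nn (by omega) (by omega)
  · exact poly_nn (by omega) (by omega)
  · exact le_rfl

theorem ww_pos {a b K : ℕ} (ha : 1 ≤ a) (hb : 1 ≤ b) (h1 : 1 ≤ K) (h2 : K < a + b) : 0 < ww a b K := by
  unfold ww
  split_ifs with h1 h2 h3 h4
  · exact poly_pos (by omega) (by omega)
  · exact poly_pos (by omega) (by omega)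
  · exact poly_pos (by omega) (by omega)
  · exact poly_pos (by omega) (by omega)
  · omega

theorem v0_nn (a b s : ℕ) : 0 ≤ v0 a b s := by
  have h1 := ww_nn a b (s + 2)
  have h2 := ww_nn a b (s + 1)
  have h3 := ww_nn a b s
  have h4 := hh_nn a b (s + 2)
  have h5 := hh_nn a b (s + 1)
  have h6 := hh_nn a b s
  unfold v0
  split_ifs <;> linarith

theorem v1_nn (a b s : ℕ) : 0 ≤ v1 a b s := by
  have h2 := ww_nn a b (s + 1)
  have h3 := ww_nn a b s
  have h5 := hh_nn a b (s + 1)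
  have h6 := hh_nn a b s
  unfold v1
  linarith

theorem s1_11 {a b : ℕ} (hA : a = 1) (hB : b = 1) :
    c0 a b * v1 a b 1 ≤ v1 a b 0 * v0 a b 0 := by
  have w0 := ww_ll (a := a) (b := b) (K := 0) (by omega) (by omega)
  have h0 := hh_ll (a := a) (b := b) (K := 0) (by omega) (by omega)
  have w1 := ww_ll (a := a) (b := b) (K := 1) (by omega) (by omega)
  have h1 := hh_ll (a := a) (b := b) (K := 1) (by omega) (by omega)
  have w2 := ww_hh (a := a) (b := b) (K := 2) (by omega) (by omega) (by omega)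
  have h2 := hh_hh (a := a) (b := b) (K := 2) (by omega) (by omega) (by omega)
  have d0 : (if 0 = b then (3 : ℤ) else 0) = 0 := if_neg (by omega)
  have d1 : (if 1 = b then (3 : ℤ) else 0) = 3 := if_pos (by omega)
  simp only [c0, v0, v1, Nat.zero_add, w0, h0, w1, h1, w2, h2, d0, d1]
  obtain ⟨y, z, rfl, rfl⟩ : ∃ y z, a = 1 ∧ b = 1 := ⟨a - 2, b - 2, by omega, by omega⟩
  rw [← sub_nonneg]
  push_cast
  all_goals ring_nf
  all_goals positivity

theorem s1_12 {a b : ℕ} (hA : a = 1) (hB : 2 ≤ b) :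
    c0 a b * v1 a b 1 ≤ v1 a b 0 * v0 a b 0 := by
  have w0 := ww_ll (a := a) (b := b) (K := 0) (by omega) (by omega)
  have h0 := hh_ll (a := a) (b := b) (K := 0) (by omega) (by omega)
  have w1 := ww_ll (a := a) (b := b) (K := 1) (by omega) (by omega)
  have h1 := hh_ll (a := a) (b := b) (K := 1) (by omega) (by omega)
  have w2 := ww_hl (a := a) (b := b) (K := 2) (by omega) (by omega)
  have h2 := hh_hl (a := a) (b := b) (K := 2) (by omega) (by omega)
  have d0 : (if 0 = b then (3 : ℤ) else 0) = 0 := if_neg (by omega)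
  have d1 : (if 1 = b then (3 : ℤ) else 0) = 0 := if_neg (by omega)
  simp only [c0, v0, v1, Nat.zero_add, w0, h0, w1, h1, w2, h2, d0, d1]
  obtain ⟨y, z, rfl, rfl⟩ : ∃ y z, a = 1 ∧ b = z + 2 := ⟨a - 2, b - 2, by omega, by omega⟩
  rw [← sub_nonneg]
  push_cast
  all_goals ring_nf
  all_goals positivity

theorem s1_21 {a b : ℕ} (hA : 2 ≤ a) (hB : b = 1) :
    c0 a b * v1 a b 1 ≤ v1 a b 0 * v0 a b 0 := by
  have w0 := ww_ll (a := a) (b := b) (K := 0) (by omega) (by omega)
  have h0 := hh_ll (a := a) (b := b) (K := 0) (by omega) (by omega)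
  have w1 := ww_ll (a := a) (b := b) (K := 1) (by omega) (by omega)
  have h1 := hh_ll (a := a) (b := b) (K := 1) (by omega) (by omega)
  have w2 := ww_lh (a := a) (b := b) (K := 2) (by omega) (by omega)
  have h2 := hh_lh (a := a) (b := b) (K := 2) (by omega) (by omega)
  have d0 : (if 0 = b then (3 : ℤ) else 0) = 0 := if_neg (by omega)
  have d1 : (if 1 = b then (3 : ℤ) else 0) = 3 := if_pos (by omega)
  simp only [c0, v0, v1, Nat.zero_add, w0, h0, w1, h1, w2, h2, d0, d1]
  obtain ⟨y, z, rfl, rfl⟩ : ∃ y z, a = y + 2 ∧ b = 1 := ⟨a - 2, b - 2, by omega, by omega⟩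
  rw [← sub_nonneg]
  push_cast
  all_goals ring_nf
  all_goals positivity

theorem s1_22 {a b : ℕ} (hA : 2 ≤ a) (hB : 2 ≤ b) :
    c0 a b * v1 a b 1 ≤ v1 a b 0 * v0 a b 0 := by
  have w0 := ww_ll (a := a) (b := b) (K := 0) (by omega) (by omega)
  have h0 := hh_ll (a := a) (b := b) (K := 0) (by omega) (by omega)
  have w1 := ww_ll (a := a) (b := b) (K := 1) (by omega) (by omega)
  have h1 := hh_ll (a := a) (b := b) (K := 1) (by omega) (by omega)
  have w2 := ww_ll (a := a) (b := b) (K := 2) (by omega) (by omega)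
  have h2 := hh_ll (a := a) (b := b) (K := 2) (by omega) (by omega)
  have d0 : (if 0 = b then (3 : ℤ) else 0) = 0 := if_neg (by omega)
  have d1 : (if 1 = b then (3 : ℤ) else 0) = 0 := if_neg (by omega)
  simp only [c0, v0, v1, Nat.zero_add, w0, h0, w1, h1, w2, h2, d0, d1]
  obtain ⟨y, z, rfl, rfl⟩ : ∃ y z, a = y + 2 ∧ b = z + 2 := ⟨a - 2, b - 2, by omega, by omega⟩
  rw [← sub_nonneg]
  push_cast
  all_goals ring_nf
  all_goals positivity

theorem s5_11 {a b : ℕ} (hA : a = 1) (hB : b = 1) :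
    v1 a b 0 * v1 a b 0 ≤ c0 a b * v0 a b 0 := by
  have w0 := ww_ll (a := a) (b := b) (K := 0) (by omega) (by omega)
  have h0 := hh_ll (a := a) (b := b) (K := 0) (by omega) (by omega)
  have w1 := ww_ll (a := a) (b := b) (K := 1) (by omega) (by omega)
  have h1 := hh_ll (a := a) (b := b) (K := 1) (by omega) (by omega)
  have w2 := ww_hh (a := a) (b := b) (K := 2) (by omega) (by omega) (by omega)
  have h2 := hh_hh (a := a) (b := b) (K := 2) (by omega) (by omega) (by omega)
  have d0 : (if 0 = b then (3 : ℤ) else 0) = 0 := if_neg (by omega)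
  have d1 : (if 1 = b then (3 : ℤ) else 0) = 3 := if_pos (by omega)
  simp only [c0, v0, v1, Nat.zero_add, w0, h0, w1, h1, w2, h2, d0, d1]
  obtain ⟨y, z, rfl, rfl⟩ : ∃ y z, a = 1 ∧ b = 1 := ⟨a - 2, b - 2, by omega, by omega⟩
  rw [← sub_nonneg]
  push_cast
  all_goals ring_nf
  all_goals positivity

theorem s5_12 {a b : ℕ} (hA : a = 1) (hB : 2 ≤ b) :
    v1 a b 0 * v1 a b 0 ≤ c0 a b * v0 a b 0 := by
  have w0 := ww_ll (a := a) (b := b) (K := 0) (by omega) (by omega)
  have h0 := hh_ll (a := a) (b := b) (K := 0) (by omega) (by omega)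
  have w1 := ww_ll (a := a) (b := b) (K := 1) (by omega) (by omega)
  have h1 := hh_ll (a := a) (b := b) (K := 1) (by omega) (by omega)
  have w2 := ww_hl (a := a) (b := b) (K := 2) (by omega) (by omega)
  have h2 := hh_hl (a := a) (b := b) (K := 2) (by omega) (by omega)
  have d0 : (if 0 = b then (3 : ℤ) else 0) = 0 := if_neg (by omega)
  have d1 : (if 1 = b then (3 : ℤ) else 0) = 0 := if_neg (by omega)
  simp only [c0, v0, v1, Nat.zero_add, w0, h0, w1, h1, w2, h2, d0, d1]
  obtain ⟨y, z, rfl, rfl⟩ : ∃ y z, a = 1 ∧ b = z + 2 := ⟨a - 2, b - 2, by omega, by omega⟩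
  rw [← sub_nonneg]
  push_cast
  all_goals ring_nf
  all_goals positivity

theorem s5_21 {a b : ℕ} (hA : 2 ≤ a) (hB : b = 1) :
    v1 a b 0 * v1 a b 0 ≤ c0 a b * v0 a b 0 := by
  have w0 := ww_ll (a := a) (b := b) (K := 0) (by omega) (by omega)
  have h0 := hh_ll (a := a) (b := b) (K := 0) (by omega) (by omega)
  have w1 := ww_ll (a := a) (b := b) (K := 1) (by omega) (by omega)
  have h1 := hh_ll (a := a) (b := b) (K := 1) (by omega) (by omega)
  have w2 := ww_lh (a := a) (b := b) (K := 2) (by omega) (by omega)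
  have h2 := hh_lh (a := a) (b := b) (K := 2) (by omega) (by omega)
  have d0 : (if 0 = b then (3 : ℤ) else 0) = 0 := if_neg (by omega)
  have d1 : (if 1 = b then (3 : ℤ) else 0) = 3 := if_pos (by omega)
  simp only [c0, v0, v1, Nat.zero_add, w0, h0, w1, h1, w2, h2, d0, d1]
  obtain ⟨y, z, rfl, rfl⟩ : ∃ y z, a = y + 2 ∧ b = 1 := ⟨a - 2, b - 2, by omega, by omega⟩
  rw [← sub_nonneg]
  push_cast
  all_goals ring_nf
  all_goals positivity

theorem s5_22 {a b : ℕ} (hA : 2 ≤ a) (hB : 2 ≤ b) :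
    v1 a b 0 * v1 a b 0 ≤ c0 a b * v0 a b 0 := by
  have w0 := ww_ll (a := a) (b := b) (K := 0) (by omega) (by omega)
  have h0 := hh_ll (a := a) (b := b) (K := 0) (by omega) (by omega)
  have w1 := ww_ll (a := a) (b := b) (K := 1) (by omega) (by omega)
  have h1 := hh_ll (a := a) (b := b) (K := 1) (by omega) (by omega)
  have w2 := ww_ll (a := a) (b := b) (K := 2) (by omega) (by omega)
  have h2 := hh_ll (a := a) (b := b) (K := 2) (by omega) (by omega)
  have d0 : (if 0 = b then (3 : ℤ) else 0) = 0 := if_neg (by omega)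
  have d1 : (if 1 = b then (3 : ℤ) else 0) = 0 := if_neg (by omega)
  simp only [c0, v0, v1, Nat.zero_add, w0, h0, w1, h1, w2, h2, d0, d1]
  obtain ⟨y, z, rfl, rfl⟩ : ∃ y z, a = y + 2 ∧ b = z + 2 := ⟨a - 2, b - 2, by omega, by omega⟩
  rw [← sub_nonneg]
  push_cast
  all_goals ring_nf
  all_goals positivity

theorem t3_11 {a b s : ℕ} (hA : a = 1) (hB : b = 1) (hs : s + 2 = a + b) :
    v1 a b s * v0 a b (s + 1) ≤ v0 a b s * v1 a b (s + 1) := by
  have w3 := ww_out (a := a) (b := b) (K := s + 3) (by omega)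
  have h3 := hh_out (a := a) (b := b) (K := s + 3) (by omega)
  have w2 := ww_out (a := a) (b := b) (K := s + 2) (by omega)
  have h2 := hh_out (a := a) (b := b) (K := s + 2) (by omega)
  have w1 := ww_hh (a := a) (b := b) (K := s + 1) (by omega) (by omega) (by omega)
  have h1 := hh_hh (a := a) (b := b) (K := s + 1) (by omega) (by omega) (by omega)
  have w0 := ww_ll (a := a) (b := b) (K := s) (by omega) (by omega)
  have h0 := hh_ll (a := a) (b := b) (K := s) (by omega) (by omega)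
  have d2 : (if s + 2 = b then (3 : ℤ) else 0) = 0 := if_neg (by omega)
  have d1 : (if s + 1 = b then (3 : ℤ) else 0) = 3 := if_pos (by omega)
  simp only [v0, v1, Nat.add_assoc, Nat.reduceAdd, w0, h0, w1, h1, w2, h2, w3, h3, d1, d2]
  obtain ⟨y, z, rfl, rfl, rfl⟩ : ∃ y z, a = 1 ∧ b = 1 ∧ s = 0 :=
    ⟨a - 2, b - 2, by omega, by omega, by omega⟩
  rw [← sub_nonneg]
  push_cast
  all_goals ring_nf
  all_goals positivity

theorem t3_12 {a b s : ℕ} (hA : a = 1) (hB : 2 ≤ b) (hs : s + 2 = a + b) :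
    v1 a b s * v0 a b (s + 1) ≤ v0 a b s * v1 a b (s + 1) := by
  have w3 := ww_out (a := a) (b := b) (K := s + 3) (by omega)
  have h3 := hh_out (a := a) (b := b) (K := s + 3) (by omega)
  have w2 := ww_out (a := a) (b := b) (K := s + 2) (by omega)
  have h2 := hh_out (a := a) (b := b) (K := s + 2) (by omega)
  have w1 := ww_hh (a := a) (b := b) (K := s + 1) (by omega) (by omega) (by omega)
  have h1 := hh_hh (a := a) (b := b) (K := s + 1) (by omega) (by omega) (by omega)
  have w0 := ww_hl (a := a) (b := b) (K := s) (by omega) (by omega)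
  have h0 := hh_hl (a := a) (b := b) (K := s) (by omega) (by omega)
  have d2 : (if s + 2 = b then (3 : ℤ) else 0) = 0 := if_neg (by omega)
  have d1 : (if s + 1 = b then (3 : ℤ) else 0) = 3 := if_pos (by omega)
  simp only [v0, v1, Nat.add_assoc, Nat.reduceAdd, w0, h0, w1, h1, w2, h2, w3, h3, d1, d2]
  obtain ⟨y, z, rfl, rfl, rfl⟩ : ∃ y z, a = 1 ∧ b = z + 2 ∧ s = z + 1 :=
    ⟨a - 2, b - 2, by omega, by omega, by omega⟩
  rw [← sub_nonneg]
  push_cast
  all_goals ring_nf
  all_goals positivity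

theorem t3_21 {a b s : ℕ} (hA : 2 ≤ a) (hB : b = 1) (hs : s + 2 = a + b) :
    v1 a b s * v0 a b (s + 1) ≤ v0 a b s * v1 a b (s + 1) := by
  have w3 := ww_out (a := a) (b := b) (K := s + 3) (by omega)
  have h3 := hh_out (a := a) (b := b) (K := s + 3) (by omega)
  have w2 := ww_out (a := a) (b := b) (K := s + 2) (by omega)
  have h2 := hh_out (a := a) (b := b) (K := s + 2) (by omega)
  have w1 := ww_hh (a := a) (b := b) (K := s + 1) (by omega) (by omega) (by omega)
  have h1 := hh_hh (a := a) (b := b) (K := s + 1) (by omega) (by omega) (by omega)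
  have w0 := ww_lh (a := a) (b := b) (K := s) (by omega) (by omega)
  have h0 := hh_lh (a := a) (b := b) (K := s) (by omega) (by omega)
  have d2 : (if s + 2 = b then (3 : ℤ) else 0) = 0 := if_neg (by omega)
  have d1 : (if s + 1 = b then (3 : ℤ) else 0) = 0 := if_neg (by omega)
  simp only [v0, v1, Nat.add_assoc, Nat.reduceAdd, w0, h0, w1, h1, w2, h2, w3, h3, d1, d2]
  obtain ⟨y, z, rfl, rfl, rfl⟩ : ∃ y z, a = y + 2 ∧ b = 1 ∧ s = y + 1 :=
    ⟨a - 2, b - 2, by omega, by omega, by omega⟩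
  rw [← sub_nonneg]
  push_cast
  all_goals ring_nf
  all_goals positivity

theorem t3_22 {a b s : ℕ} (hA : 2 ≤ a) (hB : 2 ≤ b) (hs : s + 2 = a + b) :
    v1 a b s * v0 a b (s + 1) ≤ v0 a b s * v1 a b (s + 1) := by
  have w3 := ww_out (a := a) (b := b) (K := s + 3) (by omega)
  have h3 := hh_out (a := a) (b := b) (K := s + 3) (by omega)
  have w2 := ww_out (a := a) (b := b) (K := s + 2) (by omega)
  have h2 := hh_out (a := a) (b := b) (K := s + 2) (by omega)
  have w1 := ww_hh (a := a) (b := b) (K := s + 1) (by omega) (by omega) (by omega)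
  have h1 := hh_hh (a := a) (b := b) (K := s + 1) (by omega) (by omega) (by omega)
  have w0 := ww_hh (a := a) (b := b) (K := s) (by omega) (by omega) (by omega)
  have h0 := hh_hh (a := a) (b := b) (K := s) (by omega) (by omega) (by omega)
  have d2 : (if s + 2 = b then (3 : ℤ) else 0) = 0 := if_neg (by omega)
  have d1 : (if s + 1 = b then (3 : ℤ) else 0) = 0 := if_neg (by omega)
  simp only [v0, v1, Nat.add_assoc, Nat.reduceAdd, w0, h0, w1, h1, w2, h2, w3, h3, d1, d2]
  obtain ⟨y, z, rfl, rfl, rfl⟩ : ∃ y z, a = y + 2 ∧ b = z + 2 ∧ s = y + z + 2 :=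
    ⟨a - 2, b - 2, by omega, by omega, by omega⟩
  rw [← sub_nonneg]
  push_cast
  all_goals ring_nf
  all_goals positivity

theorem t5_11 {a b s : ℕ} (hA : a = 1) (hB : b = 1) (hs : s + 2 = a + b) :
    v1 a b (s + 1) * v1 a b (s + 1) ≤ v0 a b s * v0 a b (s + 1) := by
  have w3 := ww_out (a := a) (b := b) (K := s + 3) (by omega)
  have h3 := hh_out (a := a) (b := b) (K := s + 3) (by omega)
  have w2 := ww_out (a := a) (b := b) (K := s + 2) (by omega)
  have h2 := hh_out (a := a) (b := b) (K := s + 2) (by omega)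
  have w1 := ww_hh (a := a) (b := b) (K := s + 1) (by omega) (by omega) (by omega)
  have h1 := hh_hh (a := a) (b := b) (K := s + 1) (by omega) (by omega) (by omega)
  have w0 := ww_ll (a := a) (b := b) (K := s) (by omega) (by omega)
  have h0 := hh_ll (a := a) (b := b) (K := s) (by omega) (by omega)
  have d2 : (if s + 2 = b then (3 : ℤ) else 0) = 0 := if_neg (by omega)
  have d1 : (if s + 1 = b then (3 : ℤ) else 0) = 3 := if_pos (by omega)
  simp only [v0, v1, Nat.add_assoc, Nat.reduceAdd, w0, h0, w1, h1, w2, h2, w3, h3, d1, d2]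
  obtain ⟨y, z, rfl, rfl, rfl⟩ : ∃ y z, a = 1 ∧ b = 1 ∧ s = 0 :=
    ⟨a - 2, b - 2, by omega, by omega, by omega⟩
  rw [← sub_nonneg]
  push_cast
  all_goals ring_nf
  all_goals positivity

theorem t5_12 {a b s : ℕ} (hA : a = 1) (hB : 2 ≤ b) (hs : s + 2 = a + b) :
    v1 a b (s + 1) * v1 a b (s + 1) ≤ v0 a b s * v0 a b (s + 1) := by
  have w3 := ww_out (a := a) (b := b) (K := s + 3) (by omega)
  have h3 := hh_out (a := a) (b := b) (K := s + 3) (by omega)
  have w2 := ww_out (a := a) (b := b) (K := s + 2) (by omega)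
  have h2 := hh_out (a := a) (b := b) (K := s + 2) (by omega)
  have w1 := ww_hh (a := a) (b := b) (K := s + 1) (by omega) (by omega) (by omega)
  have h1 := hh_hh (a := a) (b := b) (K := s + 1) (by omega) (by omega) (by omega)
  have w0 := ww_hl (a := a) (b := b) (K := s) (by omega) (by omega)
  have h0 := hh_hl (a := a) (b := b) (K := s) (by omega) (by omega)
  have d2 : (if s + 2 = b then (3 : ℤ) else 0) = 0 := if_neg (by omega)
  have d1 : (if s + 1 = b then (3 : ℤ) else 0) = 3 := if_pos (by omega)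
  simp only [v0, v1, Nat.add_assoc, Nat.reduceAdd, w0, h0, w1, h1, w2, h2, w3, h3, d1, d2]
  obtain ⟨y, z, rfl, rfl, rfl⟩ : ∃ y z, a = 1 ∧ b = z + 2 ∧ s = z + 1 :=
    ⟨a - 2, b - 2, by omega, by omega, by omega⟩
  rw [← sub_nonneg]
  push_cast
  all_goals ring_nf
  all_goals positivity

theorem t5_21 {a b s : ℕ} (hA : 2 ≤ a) (hB : b = 1) (hs : s + 2 = a + b) :
    v1 a b (s + 1) * v1 a b (s + 1) ≤ v0 a b s * v0 a b (s + 1) := by
  have w3 := ww_out (a := a) (b := b) (K := s + 3) (by omega)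
  have h3 := hh_out (a := a) (b := b) (K := s + 3) (by omega)
  have w2 := ww_out (a := a) (b := b) (K := s + 2) (by omega)
  have h2 := hh_out (a := a) (b := b) (K := s + 2) (by omega)
  have w1 := ww_hh (a := a) (b := b) (K := s + 1) (by omega) (by omega) (by omega)
  have h1 := hh_hh (a := a) (b := b) (K := s + 1) (by omega) (by omega) (by omega)
  have w0 := ww_lh (a := a) (b := b) (K := s) (by omega) (by omega)
  have h0 := hh_lh (a := a) (b := b) (K := s) (by omega) (by omega)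
  have d2 : (if s + 2 = b then (3 : ℤ) else 0) = 0 := if_neg (by omega)
  have d1 : (if s + 1 = b then (3 : ℤ) else 0) = 0 := if_neg (by omega)
  simp only [v0, v1, Nat.add_assoc, Nat.reduceAdd, w0, h0, w1, h1, w2, h2, w3, h3, d1, d2]
  obtain ⟨y, z, rfl, rfl, rfl⟩ : ∃ y z, a = y + 2 ∧ b = 1 ∧ s = y + 1 :=
    ⟨a - 2, b - 2, by omega, by omega, by omega⟩
  rw [← sub_nonneg]
  push_cast
  all_goals ring_nf
  all_goals positivity

theorem t5_22 {a b s : ℕ} (hA : 2 ≤ a) (hB : 2 ≤ b) (hs : s + 2 = a + b) :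
    v1 a b (s + 1) * v1 a b (s + 1) ≤ v0 a b s * v0 a b (s + 1) := by
  have w3 := ww_out (a := a) (b := b) (K := s + 3) (by omega)
  have h3 := hh_out (a := a) (b := b) (K := s + 3) (by omega)
  have w2 := ww_out (a := a) (b := b) (K := s + 2) (by omega)
  have h2 := hh_out (a := a) (b := b) (K := s + 2) (by omega)
  have w1 := ww_hh (a := a) (b := b) (K := s + 1) (by omega) (by omega) (by omega)
  have h1 := hh_hh (a := a) (b := b) (K := s + 1) (by omega) (by omega) (by omega)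
  have w0 := ww_hh (a := a) (b := b) (K := s) (by omega) (by omega) (by omega)
  have h0 := hh_hh (a := a) (b := b) (K := s) (by omega) (by omega) (by omega)
  have d2 : (if s + 2 = b then (3 : ℤ) else 0) = 0 := if_neg (by omega)
  have d1 : (if s + 1 = b then (3 : ℤ) else 0) = 0 := if_neg (by omega)
  simp only [v0, v1, Nat.add_assoc, Nat.reduceAdd, w0, h0, w1, h1, w2, h2, w3, h3, d1, d2]
  obtain ⟨y, z, rfl, rfl, rfl⟩ : ∃ y z, a = y + 2 ∧ b = z + 2 ∧ s = y + z + 2 :=
    ⟨a - 2, b - 2, by omega, by omega, by omega⟩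
  rw [← sub_nonneg]
  push_cast
  all_goals ring_nf
  all_goals positivity

theorem m1 {a b : ℕ} (ha : 1 ≤ a) (hb : 1 ≤ b) (s : ℕ) :
    v0 a b s * v1 a b (s + 2) ≤ v1 a b (s + 1) * v0 a b (s + 1) := by
  by_cases hK : s + 3 ≤ a + b
  · have cA : s + 3 ≤ a ∨ a = s + 2 ∨ a = s + 1 ∨ a ≤ s := by omega
    have cB : s + 3 ≤ b ∨ b = s + 2 ∨ b = s + 1 ∨ b ≤ s := by omega
    rcases cA with hA | hA | hA | hA
    · rcases cB with hB | hB | hB | hB
      · exact i1_ge_ge ha hb hK hA hB
      · exact i1_ge_p0 ha hb hK hA hB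
      · exact i1_ge_m1 ha hb hK hA hB
      · exact i1_ge_le ha hb hK hA hB
    · rcases cB with hB | hB | hB | hB
      · exact i1_p0_ge ha hb hK hA hB
      · exact i1_p0_p0 ha hb hK hA hB
      · exact i1_p0_m1 ha hb hK hA hB
      · exact i1_p0_le ha hb hK hA hB
    · rcases cB with hB | hB | hB | hB
      · exact i1_m1_ge ha hb hK hA hB
      · exact i1_m1_p0 ha hb hK hA hB
      · exact i1_m1_m1 ha hb hK hA hB
      · exact i1_m1_le ha hb hK hA hB
    · rcases cB with hB | hB | hB | hB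
      · exact i1_le_ge ha hb hK hA hB
      · exact i1_le_p0 ha hb hK hA hB
      · exact i1_le_m1 ha hb hK hA hB
      · exact i1_le_le ha hb hK hA hB
  · have e : v1 a b (s + 2) = 0 := by
      simp only [v1, Nat.add_assoc, Nat.reduceAdd, ww_out (a := a) (b := b) (K := s + 3) (by omega),
        hh_out (a := a) (b := b) (K := s + 3) (by omega), ww_out (a := a) (b := b) (K := s + 2) (by omega),
        hh_out (a := a) (b := b) (K := s + 2) (by omega)]
      norm_num
    rw [e, mul_zero]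
    exact mul_nonneg (v1_nn _ _ _) (v0_nn _ _ _)

theorem m2 {a b : ℕ} (ha : 1 ≤ a) (hb : 1 ≤ b) (s : ℕ) :
    v1 a b s * ww a b (s + 2) ≤ ww a b (s + 1) * v1 a b (s + 1) := by
  by_cases hK : s + 2 ≤ a + b
  · have cA : s + 2 ≤ a ∨ a = s + 1 ∨ a ≤ s := by omega
    have cB : s + 2 ≤ b ∨ b = s + 1 ∨ b ≤ s := by omega
    rcases cA with hA | hA | hA
    · rcases cB with hB | hB | hB
      · exact i2_ge_ge ha hb hK hA hB
      · exact i2_ge_p0 ha hb hK hA hB
      · exact i2_ge_le ha hb hK hA hB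
    · rcases cB with hB | hB | hB
      · exact i2_p0_ge ha hb hK hA hB
      · exact i2_p0_p0 ha hb hK hA hB
      · exact i2_p0_le ha hb hK hA hB
    · rcases cB with hB | hB | hB
      · exact i2_le_ge ha hb hK hA hB
      · exact i2_le_p0 ha hb hK hA hB
      · exact i2_le_le ha hb hK hA hB
  · rw [ww_out (a := a) (b := b) (K := s + 2) (by omega), mul_zero]
    exact mul_nonneg (ww_nn _ _ _) (v1_nn _ _ _)

theorem m3 {a b : ℕ} (ha : 1 ≤ a) (hb : 1 ≤ b) (s : ℕ) :
    v1 a b s * v0 a b (s + 1) ≤ v0 a b s * v1 a b (s + 1) := by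
  by_cases hK : s + 3 ≤ a + b
  · have cA : s + 3 ≤ a ∨ a = s + 2 ∨ a = s + 1 ∨ a ≤ s := by omega
    have cB : s + 3 ≤ b ∨ b = s + 2 ∨ b = s + 1 ∨ b ≤ s := by omega
    rcases cA with hA | hA | hA | hA
    · rcases cB with hB | hB | hB | hB
      · exact i3_ge_ge ha hb hK hA hB
      · exact i3_ge_p1 ha hb hK hA hB
      · exact i3_ge_p0 ha hb hK hA hB
      · exact i3_ge_le ha hb hK hA hB
    · rcases cB with hB | hB | hB | hB
      · exact i3_p1_ge ha hb hK hA hB
      · exact i3_p1_p1 ha hb hK hA hB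
      · exact i3_p1_p0 ha hb hK hA hB
      · exact i3_p1_le ha hb hK hA hB
    · rcases cB with hB | hB | hB | hB
      · exact i3_p0_ge ha hb hK hA hB
      · exact i3_p0_p1 ha hb hK hA hB
      · exact i3_p0_p0 ha hb hK hA hB
      · exact i3_p0_le ha hb hK hA hB
    · rcases cB with hB | hB | hB | hB
      · exact i3_le_ge ha hb hK hA hB
      · exact i3_le_p1 ha hb hK hA hB
      · exact i3_le_p0 ha hb hK hA hB
      · exact i3_le_le ha hb hK hA hB
  · by_cases hs : s + 2 = a + b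
    · rcases (by omega : a = 1 ∨ 2 ≤ a) with hA | hA
      · rcases (by omega : b = 1 ∨ 2 ≤ b) with hB | hB
        · exact t3_11 hA hB hs
        · exact t3_12 hA hB hs
      · rcases (by omega : b = 1 ∨ 2 ≤ b) with hB | hB
        · exact t3_21 hA hB hs
        · exact t3_22 hA hB hs
    · have e : v0 a b (s + 1) = 0 := by
        simp only [v0, Nat.add_assoc, Nat.reduceAdd, ww_out (a := a) (b := b) (K := s + 3) (by omega),
          hh_out (a := a) (b := b) (K := s + 3) (by omega), ww_out (a := a) (b := b) (K := s + 2) (by omega),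
          hh_out (a := a) (b := b) (K := s + 2) (by omega), ww_out (a := a) (b := b) (K := s + 1) (by omega),
          hh_out (a := a) (b := b) (K := s + 1) (by omega)]
        rw [if_neg (by omega)]
        norm_num
      rw [e, mul_zero]
      exact mul_nonneg (v0_nn _ _ _) (v1_nn _ _ _)

theorem m4 {a b : ℕ} (ha : 1 ≤ a) (hb : 1 ≤ b) (s : ℕ) :
    ww a b (s + 1) * v1 a b (s + 2) ≤ v1 a b (s + 1) * ww a b (s + 2) := by
  by_cases hK : s + 3 ≤ a + b
  · have cA : s + 3 ≤ a ∨ a = s + 2 ∨ a ≤ s + 1 := by omega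
    have cB : s + 3 ≤ b ∨ b = s + 2 ∨ b ≤ s + 1 := by omega
    rcases cA with hA | hA | hA
    · rcases cB with hB | hB | hB
      · exact i4_ge_ge ha hb hK hA hB
      · exact i4_ge_p1 ha hb hK hA hB
      · exact i4_ge_le ha hb hK hA hB
    · rcases cB with hB | hB | hB
      · exact i4_p1_ge ha hb hK hA hB
      · exact i4_p1_p1 ha hb hK hA hB
      · exact i4_p1_le ha hb hK hA hB
    · rcases cB with hB | hB | hB
      · exact i4_le_ge ha hb hK hA hB
      · exact i4_le_p1 ha hb hK hA hB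
      · exact i4_le_le ha hb hK hA hB
  · have e : v1 a b (s + 2) = 0 := by
      simp only [v1, Nat.add_assoc, Nat.reduceAdd, ww_out (a := a) (b := b) (K := s + 3) (by omega),
        hh_out (a := a) (b := b) (K := s + 3) (by omega), ww_out (a := a) (b := b) (K := s + 2) (by omega),
        hh_out (a := a) (b := b) (K := s + 2) (by omega)]
      norm_num
    rw [e, mul_zero]
    exact mul_nonneg (v1_nn _ _ _) (ww_nn _ _ _)

theorem m5 {a b : ℕ} (ha : 1 ≤ a) (hb : 1 ≤ b) (s : ℕ) :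
    v1 a b (s + 1) * v1 a b (s + 1) ≤ v0 a b s * v0 a b (s + 1) := by
  by_cases hK : s + 3 ≤ a + b
  · have cA : s + 3 ≤ a ∨ a = s + 2 ∨ a = s + 1 ∨ a ≤ s := by omega
    have cB : s + 3 ≤ b ∨ b = s + 2 ∨ b = s + 1 ∨ b ≤ s := by omega
    rcases cA with hA | hA | hA | hA
    · rcases cB with hB | hB | hB | hB
      · exact i5_ge_ge ha hb hK hA hB
      · exact i5_ge_p0 ha hb hK hA hB
      · exact i5_ge_m1 ha hb hK hA hB
      · exact i5_ge_le ha hb hK hA hB
    · rcases cB with hB | hB | hB | hB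
      · exact i5_p0_ge ha hb hK hA hB
      · exact i5_p0_p0 ha hb hK hA hB
      · exact i5_p0_m1 ha hb hK hA hB
      · exact i5_p0_le ha hb hK hA hB
    · rcases cB with hB | hB | hB | hB
      · exact i5_m1_ge ha hb hK hA hB
      · exact i5_m1_p0 ha hb hK hA hB
      · exact i5_m1_m1 ha hb hK hA hB
      · exact i5_m1_le ha hb hK hA hB
    · rcases cB with hB | hB | hB | hB
      · exact i5_le_ge ha hb hK hA hB
      · exact i5_le_p0 ha hb hK hA hB
      · exact i5_le_m1 ha hb hK hA hB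
      · exact i5_le_le ha hb hK hA hB
  · by_cases hs : s + 2 = a + b
    · rcases (by omega : a = 1 ∨ 2 ≤ a) with hA | hA
      · rcases (by omega : b = 1 ∨ 2 ≤ b) with hB | hB
        · exact t5_11 hA hB hs
        · exact t5_12 hA hB hs
      · rcases (by omega : b = 1 ∨ 2 ≤ b) with hB | hB
        · exact t5_21 hA hB hs
        · exact t5_22 hA hB hs
    · have e : v1 a b (s + 1) = 0 := by
        simp only [v1, Nat.add_assoc, Nat.reduceAdd, ww_out (a := a) (b := b) (K := s + 2) (by omega),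
          hh_out (a := a) (b := b) (K := s + 2) (by omega), ww_out (a := a) (b := b) (K := s + 1) (by omega),
          hh_out (a := a) (b := b) (K := s + 1) (by omega)]
        norm_num
      rw [e, mul_zero]
      exact mul_nonneg (v0_nn _ _ _) (v0_nn _ _ _)

theorem m6 {a b : ℕ} (ha : 1 ≤ a) (hb : 1 ≤ b) (s : ℕ) :
    ww a b (s + 1) * v0 a b s ≤ v1 a b s * v1 a b (s + 1) := by
  by_cases hK : s + 2 ≤ a + b
  · have cA : s + 2 ≤ a ∨ a = s + 1 ∨ a ≤ s := by omega
    have cB : s + 2 ≤ b ∨ b = s + 1 ∨ b ≤ s := by omega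
    rcases cA with hA | hA | hA
    · rcases cB with hB | hB | hB
      · exact i6_ge_ge ha hb hK hA hB
      · exact i6_ge_p0 ha hb hK hA hB
      · exact i6_ge_le ha hb hK hA hB
    · rcases cB with hB | hB | hB
      · exact i6_p0_ge ha hb hK hA hB
      · exact i6_p0_p0 ha hb hK hA hB
      · exact i6_p0_le ha hb hK hA hB
    · rcases cB with hB | hB | hB
      · exact i6_le_ge ha hb hK hA hB
      · exact i6_le_p0 ha hb hK hA hB
      · exact i6_le_le ha hb hK hA hB
  · rw [ww_out (a := a) (b := b) (K := s + 1) (by omega), zero_mul]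
    exact mul_nonneg (v1_nn _ _ _) (v1_nn _ _ _)

theorem s1 {a b : ℕ} (ha : 1 ≤ a) (hb : 1 ≤ b) : c0 a b * v1 a b 1 ≤ v1 a b 0 * v0 a b 0 := by
  rcases (by omega : a = 1 ∨ 2 ≤ a) with hA | hA
  · rcases (by omega : b = 1 ∨ 2 ≤ b) with hB | hB
    · exact s1_11 hA hB
    · exact s1_12 hA hB
  · rcases (by omega : b = 1 ∨ 2 ≤ b) with hB | hB
    · exact s1_21 hA hB
    · exact s1_22 hA hB

theorem s5 {a b : ℕ} (ha : 1 ≤ a) (hb : 1 ≤ b) : v1 a b 0 * v1 a b 0 ≤ c0 a b * v0 a b 0 := by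
  rcases (by omega : a = 1 ∨ 2 ≤ a) with hA | hA
  · rcases (by omega : b = 1 ∨ 2 ≤ b) with hB | hB
    · exact s5_11 hA hB
    · exact s5_12 hA hB
  · rcases (by omega : b = 1 ∨ 2 ≤ b) with hB | hB
    · exact s5_21 hA hB
    · exact s5_22 hA hB

end LG3.CS
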