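import Pool.Agent.Lib.MP_3cd99b_gt.CS.Num2

/-!
The two-bridge family is in the class.
-/

open Finset Polynomial

namespace LG3.CS

theorem nine {A B C D : ℤ} (h : (3 * A) * (3 * B) ≤ (3 * C) * (3 * D)) : A * B ≤ C * D := by linarith

theorem ls_two (m n : ℕ) (hn : 1 ≤ n) :
    LS (m + 1 + n) (gr0 n (P1 m n) (Q1 m n)).coeff (gr1 (P1 m n) (Q1 m n)).coeff (P1 m n).coeff := by
  set a := m + 1 with ha
  have ha1 : 1 ≤ a := by omega
  have w0 : ww a n 0 = 0 := by
    rw [ww_ll (by omega) (by omega)]
    simp
  have h0 : hh a n 0 = 0 := by
    rw [hh_ll (by omega) (by omega)]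
    simp
  have ep : ∀ k, 3 * (P1 m n).coeff k = ww a n (k + 1) := fun k => P1_coeff m n k
  have eq : ∀ k, 3 * (Q1 m n).coeff k = ww a n (k + 1) + 3 * hh a n (k + 1) := by
    intro k
    rw [Q1, coeff_add, mul_add, ep, H1_coeff]
  have esp : ∀ k, 3 * sh (P1 m n).coeff k = ww a n k := by
    intro k
    cases k with
    | zero => rw [w0]; rfl
    | succ k => exact ep k
  have esq : ∀ k, 3 * sh (Q1 m n).coeff k = ww a n k + 3 * hh a n k := by
    intro k
    cases k with
    | zero => rw [w0, h0]; rfl
    | succ k => exact eq k
  have ed : ∀ k, 3 * del n k = if k = n then (3 : ℤ) else 0 := by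
    intro k
    unfold del
    split_ifs <;> rfl
  have e0z : 3 * (gr0 n (P1 m n) (Q1 m n)).coeff 0 = c0 a n := by
    rw [gr0_coeff]
    have h1 := eq 0
    have h2 := esq 0
    have h3 := esp 0
    have h4 := ed 0
    have h5 : sh (sh (Q1 m n).coeff) 0 = 0 := rfl
    unfold row0 c0
    rw [← h4]
    linarith
  have e0 : ∀ s, 3 * (gr0 n (P1 m n) (Q1 m n)).coeff (s + 1) = v0 a n s := by
    intro s
    rw [gr0_coeff]
    have h1 := eq (s + 1)
    have h2 := esq (s + 1)
    have h3 := esp (s + 1)
    have h4 := ed (s + 1)
    have h5 : 3 * sh (sh (Q1 m n).coeff) (s + 1) = ww a n s + 3 * hh a n s := esq s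
    unfold row0 v0
    rw [← h4]
    rw [show s + 1 + 1 = s + 2 from rfl] at h1
    linarith
  have e1 : ∀ s, 3 * (gr1 (P1 m n) (Q1 m n)).coeff s = v1 a n s := by
    intro s
    rw [gr1_coeff]
    have h1 := eq s
    have h2 := esq s
    have h3 := esp s
    have h4 := ep s
    unfold row1 v1
    linarith
  have nwp : ∀ K, 0 ≤ ww a n K := ww_nn a n
  have nhp : ∀ K, 0 ≤ hh a n K := hh_nn a n
  have c0nn : 0 ≤ c0 a n := by
    have := nwp 1
    have := nwp 0
    have := nhp 1
    have := nhp 0
    unfold c0
    split_ifs <;> linarith
  have out : ∀ K, a + n ≤ K → ww a n K = 0 := fun K h => ww_out h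
  have outh : ∀ K, a + n ≤ K → hh a n K = 0 := fun K h => hh_out h
  refine ⟨?_, ?_, ?_, ?_, ?_, ?_, ?_, ?_, ?_, ?_, ?_, ?_⟩
  · intro k
    cases k with
    | zero => linarith
    | succ s => linarith [e0 s, v0_nn a n s]
  · intro k
    linarith [e1 k, v1_nn a n k]
  · intro k
    linarith [ep k, nwp (k + 1)]
  · intro k
    cases k with
    | zero =>
      have h1 : 0 < c0 a n := by
        have := ww_pos (K := 1) ha1 hn le_rfl (by omega)
        have := nhp 1
        unfold c0
        rw [w0, h0]
        split_ifs <;> linarith
      constructor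
      · intro _
        omega
      · intro _ h
        rw [h] at e0z
        linarith
    | succ s =>
      constructor
      · intro h
        by_contra hs
        have h1 := e0 s
        unfold v0 at h1
        rw [out (s + 2) (by omega), out (s + 1) (by omega), out s (by omega), outh (s + 2) (by omega),
          outh (s + 1) (by omega), outh s (by omega), if_neg (by omega)] at h1
        exact h (by linarith)
      · intro hs h
        have h1 := e0 s
        rw [h] at h1
        have h2 : 0 < v0 a n s := by
          have q1 := nwp (s + 2)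
          have q2 := nwp (s + 1)
          have q3 := nwp s
          have q4 := nhp (s + 2)
          have q5 := nhp (s + 1)
          have q6 := nhp s
          by_cases h3 : s + 1 < a + n
          · have := ww_pos (K := s + 1) ha1 hn (by omega) h3
            unfold v0
            split_ifs <;> linarith
          · have := ww_pos (K := s) ha1 hn (by omega) (by omega)
            unfold v0
            split_ifs <;> linarith
        linarith
  · intro k
    constructor
    · intro h
      by_contra hs
      have h1 := e1 k
      unfold v1 at h1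
      rw [out (k + 1) (by omega), out k (by omega), outh (k + 1) (by omega), outh k (by omega)] at h1
      exact h (by linarith)
    · intro hs h
      have h1 := e1 k
      rw [h] at h1
      have q2 := nwp (k + 1)
      have q3 := nwp k
      have q5 := nhp (k + 1)
      have q6 := nhp k
      have h2 : 0 < v1 a n k := by
        by_cases h3 : k + 1 < a + n
        · have := ww_pos (K := k + 1) ha1 hn (by omega) h3
          unfold v1
          linarith
        · have := ww_pos (K := k) ha1 hn (by omega) (by omega)
          unfold v1
          linarith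
      linarith
  · intro k
    constructor
    · intro h
      by_contra hs
      have h1 := ep k
      rw [out (k + 1) (by omega)] at h1
      exact h (by linarith)
    · intro hs h
      have h1 := ep k
      rw [h] at h1
      have := ww_pos (K := k + 1) ha1 hn (by omega) (by omega)
      linarith
  · intro k
    apply nine
    cases k with
    | zero =>
      rw [e0z, e1, e1, e0]
      exact s1 ha1 hn
    | succ s =>
      rw [e0, e1, e1, e0]
      exact m1 ha1 hn s
  · intro k
    apply nine
    rw [e1, ep, ep, e1]
    exact m2 ha1 hn k
  · intro k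
    apply nine
    rw [e1, e0, e0, e1]
    exact m3 ha1 hn k
  · intro k
    apply nine
    rw [ep, e1, e1, ep]
    exact m4 ha1 hn k
  · intro k
    apply nine
    cases k with
    | zero =>
      rw [e0z, e1, e0]
      exact s5 ha1 hn
    | succ s =>
      rw [e0, e1, e0]
      exact m5 ha1 hn s
  · intro k
    apply nine
    rw [ep, e0, e1, e1]
    exact m6 ha1 hn k

/-- the array of absolute values of the two-bridge family is in the class -/
theorem two_lm (m n : ℕ) (hn : 1 ≤ n) :
    LM (fun z => |((mkPQ n (P1 m n) (Q1 m n) z : ℤ) : ℝ)|) := (ls_two m n hn).lm n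

end LG3.CS
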