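import Pool.Agent.Lib.MP_3cd99b_gt.CS.Cls

/-!
The level sets of a log-M-natural-concave array contain all lattice points of their convex hull.
-/

open Finset

namespace LG3.CS

/-- the hexagonal quadratic form -/
def qf (a : ℤ × ℤ) : ℝ := (a.1 : ℝ) ^ 2 + (a.2 : ℝ) ^ 2 + ((a.1 : ℝ) - a.2) ^ 2

theorem far {u1 u2 : ℤ} (h : ¬(|u1| ≤ 1 ∧ |u2| ≤ 1)) :
    (0 < u1 ∧ u2 < u1 ∧ 3 ≤ 2 * u1 - u2) ∨ (0 < u2 ∧ u1 < u2 ∧ 3 ≤ 2 * u2 - u1) ∨
      (0 < u1 ∧ 0 < u2 ∧ 3 ≤ u1 + u2) ∨
    (0 < -u1 ∧ -u2 < -u1 ∧ 3 ≤ 2 * (-u1) - (-u2)) ∨ (0 < -u2 ∧ -u1 < -u2 ∧ 3 ≤ 2 * (-u2) - (-u1)) ∨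
      (0 < -u1 ∧ 0 < -u2 ∧ 3 ≤ -u1 + -u2) := by
  rw [abs_le, abs_le] at h
  omega

theorem qf_move (x y : ℤ × ℤ) (i : Fin 3) (h : cn i (y - x))
    (h3 : 3 ≤ (y - x).1 * (dv i).1 + (y - x).2 * (dv i).2 + ((y - x).1 - (y - x).2) * ((dv i).1 - (dv i).2)) :
    qf (x + dv i) + qf (y - dv i) < qf x + qf y := by
  obtain ⟨x1, x2⟩ := x
  obtain ⟨y1, y2⟩ := y
  unfold qf
  fin_cases i
  · have h' : 3 ≤ (y1 - x1) * 1 + (y2 - x2) * 0 + ((y1 - x1) - (y2 - x2)) * (1 - 0) := h3
    have h'' : (3 : ℝ) ≤ ((y1 : ℝ) - x1) * 1 + ((y2 : ℝ) - x2) * 0 + (((y1 : ℝ) - x1) - (y2 - x2)) * (1 - 0) := by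
      exact_mod_cast h'
    simp [dv]
    nlinarith
  · have h' : 3 ≤ (y1 - x1) * 0 + (y2 - x2) * 1 + ((y1 - x1) - (y2 - x2)) * (0 - 1) := h3
    have h'' : (3 : ℝ) ≤ ((y1 : ℝ) - x1) * 0 + ((y2 : ℝ) - x2) * 1 + (((y1 : ℝ) - x1) - (y2 - x2)) * (0 - 1) := by
      exact_mod_cast h'
    simp [dv]
    nlinarith
  · have h' : 3 ≤ (y1 - x1) * 1 + (y2 - x2) * 1 + ((y1 - x1) - (y2 - x2)) * (1 - 1) := h3
    have h'' : (3 : ℝ) ≤ ((y1 : ℝ) - x1) * 1 + ((y2 : ℝ) - x2) * 1 + (((y1 : ℝ) - x1) - (y2 - x2)) * (1 - 1) := by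
      exact_mod_cast h'
    simp [dv]
    nlinarith

/-- two far points can be moved together -/
theorem move {F : ℤ × ℤ → ℝ} (hF : LM F) {x y : ℤ × ℤ} (hx : F x ≠ 0) (hy : F y ≠ 0)
    (h : ¬(|(y - x).1| ≤ 1 ∧ |(y - x).2| ≤ 1)) :
    ∃ p : ℤ × ℤ, F (x + p) ≠ 0 ∧ F (y - p) ≠ 0 ∧ Real.log (F x) + Real.log (F y) ≤
      Real.log (F (x + p)) + Real.log (F (y - p)) ∧ qf (x + p) + qf (y - p) < qf x + qf y := by
  have main : ∀ a b : ℤ × ℤ, F a ≠ 0 → F b ≠ 0 → ∀ i, cn i (b - a) →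
      3 ≤ (b - a).1 * (dv i).1 + (b - a).2 * (dv i).2 + ((b - a).1 - (b - a).2) * ((dv i).1 - (dv i).2) →
      F (a + dv i) ≠ 0 ∧ F (b - dv i) ≠ 0 ∧ Real.log (F a) + Real.log (F b) ≤
      Real.log (F (a + dv i)) + Real.log (F (b - dv i)) ∧ qf (a + dv i) + qf (b - dv i) < qf a + qf b := by
    intro a b ha hb i hc h3
    have h1 := hF.ex i a b hc
    have pa : 0 < F a := lt_of_le_of_ne (hF.nn a) (Ne.symm ha)
    have pb : 0 < F b := lt_of_le_of_ne (hF.nn b) (Ne.symm hb)
    have h2 : 0 < F (a + dv i) * F (b - dv i) := lt_of_lt_of_le (mul_pos pa pb) h1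
    have n1 : F (a + dv i) ≠ 0 := left_ne_zero_of_mul h2.ne'
    have n2 : F (b - dv i) ≠ 0 := right_ne_zero_of_mul h2.ne'
    refine ⟨n1, n2, ?_, qf_move a b i hc h3⟩
    rw [← Real.log_mul ha hb, ← Real.log_mul n1 n2]
    exact Real.log_le_log (mul_pos pa pb) h1
  rcases far h with h | h | h | h | h | h
  · obtain ⟨a1, a2, a3, a4⟩ := main x y hx hy 0 ⟨h.1, h.2.1⟩ (by simp [dv]; have := h.2.2; simp at this; linarith)
    exact ⟨dv 0, a1, a2, a3, a4⟩
  · obtain ⟨a1, a2, a3, a4⟩ := main x y hx hy 1 ⟨h.1, h.2.1⟩ (by simp [dv]; have := h.2.2; simp at this; linarith)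
    exact ⟨dv 1, a1, a2, a3, a4⟩
  · obtain ⟨a1, a2, a3, a4⟩ := main x y hx hy 2 ⟨h.1, h.2.1⟩ (by simp [dv]; have := h.2.2; simp at this; linarith)
    exact ⟨dv 2, a1, a2, a3, a4⟩
  · obtain ⟨a1, a2, a3, a4⟩ := main y x hy hx 0
      (by have := h.1; have := h.2.1; simp at *; exact ⟨by simp; omega, by simp; omega⟩)
      (by simp [dv]; have := h.2.2; simp at this; linarith)
    refine ⟨-dv 0, ?_, ?_, ?_, ?_⟩ <;> simp only [sub_neg_eq_add, ← sub_eq_add_neg] <;>
      first | assumption | linarith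
  · obtain ⟨a1, a2, a3, a4⟩ := main y x hy hx 1
      (by have := h.1; have := h.2.1; simp at *; exact ⟨by simp; omega, by simp; omega⟩)
      (by simp [dv]; have := h.2.2; simp at this; linarith)
    refine ⟨-dv 1, ?_, ?_, ?_, ?_⟩ <;> simp only [sub_neg_eq_add, ← sub_eq_add_neg] <;>
      first | assumption | linarith
  · obtain ⟨a1, a2, a3, a4⟩ := main y x hy hx 2
      (by have := h.1; have := h.2.1; simp at *; exact ⟨by simp; omega, by simp; omega⟩)
      (by simp [dv]; have := h.2.2; simp at this; linarith)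
    refine ⟨-dv 2, ?_, ?_, ?_, ?_⟩ <;> simp only [sub_neg_eq_add, ← sub_eq_add_neg] <;>
      first | assumption | linarith

/-- the weights on T with sum 1 and barycentre z -/
def Om (T : Finset (ℤ × ℤ)) (z : ℤ × ℤ) : Set (T → ℝ) :=
  {w | (∀ a, 0 ≤ w a) ∧ ∑ a, w a = 1 ∧ ∑ a, w a * ((a.1.1 : ℤ) : ℝ) = z.1 ∧ ∑ a, w a * ((a.1.2 : ℤ) : ℝ) = z.2}

theorem Om_compact (T : Finset (ℤ × ℤ)) (z : ℤ × ℤ) : IsCompact (Om T z) := by
  have h1 : IsCompact (Set.Icc (0 : T → ℝ) 1) := isCompact_Icc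
  refine h1.of_isClosed_subset ?_ ?_
  · have e : Om T z = {w | ∀ a, 0 ≤ w a} ∩ ({w | ∑ a, w a = 1} ∩
        ({w | ∑ a, w a * ((a.1.1 : ℤ) : ℝ) = z.1} ∩ {w | ∑ a, w a * ((a.1.2 : ℤ) : ℝ) = z.2})) := rfl
    rw [e]
    refine IsClosed.inter ?_ (IsClosed.inter ?_ (IsClosed.inter ?_ ?_))
    · rw [show {w : T → ℝ | ∀ a, 0 ≤ w a} = ⋂ a, {w | 0 ≤ w a} by ext w; simp]
      exact isClosed_iInter (fun a => isClosed_le continuous_const (continuous_apply a))
    · exact isClosed_eq (continuous_finsetSum _ (fun a _ => continuous_apply a)) continuous_const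
    · exact isClosed_eq (continuous_finsetSum _ (fun a _ => (continuous_apply a).mul continuous_const))
        continuous_const
    · exact isClosed_eq (continuous_finsetSum _ (fun a _ => (continuous_apply a).mul continuous_const))
        continuous_const
  · intro w hw
    refine ⟨fun a => hw.1 a, fun a => ?_⟩
    rw [Pi.one_apply, ← hw.2.1]
    exact single_le_sum (fun b _ => hw.1 b) (mem_univ a)

/-- weights after a move -/
def wm {T : Finset (ℤ × ℤ)} (w : T → ℝ) (t : ℝ) (a b a' b' : T) : T → ℝ := fun c =>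
  w c + t * ((if c = a' then 1 else 0) + (if c = b' then 1 else 0) - (if c = a then 1 else 0) -
    (if c = b then 1 else 0))

theorem wm_sum {T : Finset (ℤ × ℤ)} (w : T → ℝ) (t : ℝ) (a b a' b' : T) (g : T → ℝ) :
    ∑ c, wm w t a b a' b' c * g c = ∑ c, w c * g c + t * (g a' + g b' - g a - g b) := by
  have e : ∀ c, wm w t a b a' b' c * g c = w c * g c + (((if c = a' then t * g c else 0) +
      (if c = b' then t * g c else 0) - (if c = a then t * g c else 0)) - (if c = b then t * g c else 0)) := by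
    intro c
    unfold wm
    split_ifs <;> ring
  simp only [e, sum_add_distrib, sum_sub_distrib, sum_ite_eq', mem_univ, if_true]
  ring

theorem wm_nonneg {T : Finset (ℤ × ℤ)} {w : T → ℝ} (hw : ∀ c, 0 ≤ w c) {t : ℝ} (ht : 0 ≤ t) {a b : T}
    (hab : a ≠ b) (ha : t ≤ w a) (hb : t ≤ w b) (a' b' c : T) : 0 ≤ wm w t a b a' b' c := by
  have h1 : 0 ≤ t * (if c = a' then (1 : ℝ) else 0) := by split_ifs <;> simp [ht]
  have h2 : 0 ≤ t * (if c = b' then (1 : ℝ) else 0) := by split_ifs <;> simp [ht]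
  have h3 : 0 ≤ w c - t * (if c = a then (1 : ℝ) else 0) - t * (if c = b then (1 : ℝ) else 0) := by
    by_cases hca : c = a
    · subst hca
      rw [if_pos rfl, if_neg hab]
      linarith
    · by_cases hcb : c = b
      · subst hcb
        rw [if_pos rfl, if_neg hca]
        linarith
      · rw [if_neg hca, if_neg hcb]
        linarith [hw c]
  unfold wm
  linarith

/-- concavity: the value at the barycentre -/
theorem conc {F : ℤ × ℤ → ℝ} (hF : LM F) {T : Finset (ℤ × ℤ)} (hT : ∀ z, z ∈ T ↔ F z ≠ 0) {z : ℤ × ℤ}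
    {w0 : T → ℝ} (h0 : w0 ∈ Om T z) {e : ℝ} (he : 0 < e) :
    F z ≠ 0 ∧ ∑ a, w0 a * (Real.log (F a) - e * qf a) ≤ Real.log (F z) - e * qf z := by
  obtain ⟨w, hw, hmax⟩ := (Om_compact T z).exists_isMaxOn ⟨w0, h0⟩
    (f := fun w => ∑ a, w a * (Real.log (F a) - e * qf a))
    (continuous_finsetSum _ (fun a _ => (continuous_apply a).mul continuous_const)).continuousOn
  have adj : ∀ a b : T, 0 < w a → 0 < w b → |(b.1 - a.1).1| ≤ 1 ∧ |(b.1 - a.1).2| ≤ 1 := by
    intro a b ha hb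
    by_contra hn
    have hab : a ≠ b := by
      rintro rfl
      apply hn
      simp
    obtain ⟨p, p1, p2, p3, p4⟩ := move hF ((hT _).mp a.2) ((hT _).mp b.2) hn
    set a' : T := ⟨a.1 + p, (hT _).mpr p1⟩ with ha'
    set b' : T := ⟨b.1 - p, (hT _).mpr p2⟩ with hb'
    set t := min (w a) (w b) with ht
    have t0 : 0 < t := lt_min ha hb
    have hin : wm w t a b a' b' ∈ Om T z := by
      refine ⟨fun c => wm_nonneg hw.1 t0.le hab (min_le_left _ _) (min_le_right _ _) a' b' c, ?_, ?_, ?_⟩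
      · have := wm_sum w t a b a' b' (fun _ => 1)
        simp only [mul_one] at this
        rw [this, hw.2.1]
        ring
      · rw [wm_sum, hw.2.2.1]
        simp only [ha', hb', Prod.fst_add, Prod.fst_sub]
        push_cast
        ring
      · rw [wm_sum, hw.2.2.2]
        simp only [ha', hb', Prod.snd_add, Prod.snd_sub]
        push_cast
        ring
    have h1 := hmax hin
    simp only [Set.mem_ofPred_eq] at h1
    rw [wm_sum] at h1
    have h2 : 0 < t * ((Real.log (F a') - e * qf a') + (Real.log (F b') - e * qf b') -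
        (Real.log (F a) - e * qf a) - (Real.log (F b) - e * qf b)) := by
      refine mul_pos t0 ?_
      have h5 : e * (qf (a.1 + p) + qf (b.1 - p)) < e * (qf a.1 + qf b.1) := mul_lt_mul_of_pos_left p4 he
      simp only [ha', hb']
      linarith
    linarith
  have eq1 : ∀ a : T, 0 < w a → a.1 = z := by
    intro a ha
    have c1 : ∀ f : T → ℤ, ∀ m : ℤ, (∀ b : T, 0 < w b → |f b - f a| ≤ 1) → ∑ b, w b * (f b : ℝ) = m →
        f a = m := by
      intro f m hf hm
      have hs : ∑ b, w b * ((f b : ℝ) - m) = 0 := by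
        simp only [mul_sub, sum_sub_distrib, hm, ← sum_mul, hw.2.1]
        ring
      by_contra hne
      rcases lt_or_gt_of_ne hne with hlt | hgt
      · have h1 : ∀ b ∈ (univ : Finset T), w b * ((f b : ℝ) - m) ≤ 0 := by
          intro b _
          by_cases hb : 0 < w b
          · have := hf b hb
            rw [abs_le] at this
            have h2 : f b ≤ m := by omega
            have h3 : (f b : ℝ) ≤ m := by exact_mod_cast h2
            exact mul_nonpos_of_nonneg_of_nonpos hb.le (by linarith)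
          · have : w b = 0 := le_antisymm (not_lt.mp hb) (hw.1 b)
            rw [this, zero_mul]
        have h2 := (sum_eq_zero_iff_of_nonpos h1).mp hs a (mem_univ a)
        have h3 : (f a : ℝ) < m := by exact_mod_cast hlt
        nlinarith
      · have h1 : ∀ b ∈ (univ : Finset T), 0 ≤ w b * ((f b : ℝ) - m) := by
          intro b _
          by_cases hb : 0 < w b
          · have := hf b hb
            rw [abs_le] at this
            have h2 : m ≤ f b := by omega
            have h3 : (m : ℝ) ≤ f b := by exact_mod_cast h2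
            exact mul_nonneg hb.le (by linarith)
          · have : w b = 0 := le_antisymm (not_lt.mp hb) (hw.1 b)
            rw [this, zero_mul]
        have h2 := (sum_eq_zero_iff_of_nonneg h1).mp hs a (mem_univ a)
        have h3 : (m : ℝ) < f a := by exact_mod_cast hgt
        nlinarith
    exact Prod.ext (c1 (fun b => b.1.1) z.1 (fun b hb => (adj a b ha hb).1) hw.2.2.1)
      (c1 (fun b => b.1.2) z.2 (fun b hb => (adj a b ha hb).2) hw.2.2.2)
  have hex : ∃ a, 0 < w a := by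
    by_contra hn
    push Not at hn
    have : ∑ a, w a = 0 := sum_eq_zero (fun a _ => le_antisymm (hn a) (hw.1 a))
    rw [hw.2.1] at this
    exact one_ne_zero this
  obtain ⟨a0, ha0⟩ := hex
  have hz : F z ≠ 0 := by
    rw [← eq1 a0 ha0]
    exact (hT _).mp a0.2
  refine ⟨hz, ?_⟩
  have h1 := hmax h0
  simp only [Set.mem_ofPred_eq] at h1
  refine h1.trans (le_of_eq ?_)
  calc ∑ a, w a * (Real.log (F a) - e * qf a) = ∑ a, w a * (Real.log (F z) - e * qf z) := by
        refine sum_congr rfl (fun a _ => ?_)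
        by_cases ha : 0 < w a
        · rw [eq1 a ha]
        · have : w a = 0 := le_antisymm (not_lt.mp ha) (hw.1 a)
          rw [this, zero_mul, zero_mul]
    _ = _ := by rw [← sum_mul, hw.2.1, one_mul]

/-- the level sets have no holes -/
theorem LM.level {F : ℤ × ℤ → ℝ} (hF : LM F) {T : Finset (ℤ × ℤ)} (hT : ∀ z, z ∈ T ↔ F z ≠ 0) {c : ℝ}
    (hc : 0 ≤ c) {z : ℤ × ℤ} (hz : ((z.1 : ℝ), (z.2 : ℝ)) ∈
      convexHull ℝ ((fun w : ℤ × ℤ => ((w.1 : ℝ), (w.2 : ℝ))) '' {w | F w ≠ 0 ∧ c ≤ F w})) :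
    F z ≠ 0 ∧ c ≤ F z := by
  classical
  set f : ℤ × ℤ → ℝ × ℝ := fun w => ((w.1 : ℝ), (w.2 : ℝ)) with hf
  have finj : Function.Injective f := by
    intro a b hab
    have h1 : (a.1 : ℝ) = b.1 := congrArg Prod.fst hab
    have h2 : (a.2 : ℝ) = b.2 := congrArg Prod.snd hab
    exact Prod.ext (by exact_mod_cast h1) (by exact_mod_cast h2)
  set T1 := T.filter (fun w => c ≤ F w) with hT1
  have himg : (f '' {w | F w ≠ 0 ∧ c ≤ F w}) = ((T1.image f : Finset (ℝ × ℝ)) : Set (ℝ × ℝ)) := by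
    rw [coe_image]
    congr 1
    ext w
    simp only [hT1, coe_filter, Set.mem_ofPred_eq, hT]
  rw [himg, Finset.mem_convexHull'] at hz
  obtain ⟨g, g0, g1, g2⟩ := hz
  rw [sum_image (fun a _ b _ h => finj h)] at g1 g2
  set w0 : T → ℝ := fun a => if c ≤ F a then g (f a) else 0 with hw0
  have conv : ∀ h : ℤ × ℤ → ℝ, ∑ a : T, w0 a * h a = ∑ a ∈ T1, g (f a) * h a := by
    intro h
    rw [hT1, sum_filter, ← sum_coe_sort T]
    refine sum_congr rfl (fun a _ => ?_)
    simp only [hw0]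
    split_ifs <;> simp
  have hw0' : w0 ∈ Om T z := by
    refine ⟨fun a => ?_, ?_, ?_, ?_⟩
    · simp only [hw0]
      split_ifs with h
      · exact g0 _ (mem_image_of_mem f (mem_filter.mpr ⟨a.2, h⟩))
      · exact le_rfl
    · have := conv (fun _ => 1)
      simp only [mul_one] at this
      rw [this, g1]
    · have h1 := congrArg Prod.fst g2
      rw [Prod.fst_sum] at h1
      rw [conv (fun a => (a.1 : ℝ))]
      exact h1
    · have h1 := congrArg Prod.snd g2
      rw [Prod.snd_sum] at h1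
      rw [conv (fun a => (a.2 : ℝ))]
      exact h1
  have hz0 := (conc hF hT hw0' one_pos).1
  refine ⟨hz0, ?_⟩
  rcases hc.eq_or_lt with rfl | hc
  · exact hF.nn z
  have hpos : 0 < F z := lt_of_le_of_ne (hF.nn z) (Ne.symm hz0)
  rw [← Real.log_le_log_iff hc hpos]
  have hB : Real.log c ≤ ∑ a : T, w0 a * Real.log (F a) := by
    calc Real.log c = ∑ a : T, w0 a * Real.log c := by rw [← sum_mul, hw0'.2.1, one_mul]
      _ ≤ _ := by
          refine sum_le_sum (fun a _ => ?_)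
          by_cases h : c ≤ F a
          · exact mul_le_mul_of_nonneg_left (Real.log_le_log hc h) (hw0'.1 a)
          · have : w0 a = 0 := if_neg h
            rw [this, zero_mul, zero_mul]
  set Q := ∑ a : T, w0 a * qf a with hQ
  have key : ∀ e : ℝ, 0 < e → Real.log c ≤ Real.log (F z) + e * (Q - qf z) := by
    intro e he
    have h1 := (conc hF hT hw0' he).2
    have h2 : ∑ a : T, w0 a * (Real.log (F a) - e * qf a) = ∑ a : T, w0 a * Real.log (F a) - e * Q := by
      rw [hQ, mul_sum, ← sum_sub_distrib]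
      exact sum_congr rfl (fun a _ => by ring)
    rw [h2] at h1
    linarith
  by_contra hlt
  push Not at hlt
  by_cases hQ0 : Q - qf z ≤ 0
  · have := key 1 one_pos
    linarith
  · push Not at hQ0
    have h1 := key ((Real.log c - Real.log (F z)) / (2 * (Q - qf z))) (by
      apply div_pos <;> linarith)
    have h2 : (Real.log c - Real.log (F z)) / (2 * (Q - qf z)) * (Q - qf z) =
        (Real.log c - Real.log (F z)) / 2 := by
      field_simp
    linarith

end LG3.CS
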