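import Pool.Agent.Lib.MP_3cd99b_gt.Main
import Pool.Agent.Lib.MP_3cd99b_gt.Unq
import Pool.Agent.Lib.MP_3cd99b_gt.Bridge
import Pool.Agent.Lib.MP_3cd99b_gt.CS.Cls
import Pool.Agent.Lib.MP_3cd99b_gt.CS.Uni

/-!
Connected sums: the state sum of a composition of (1,1)-tangle diagrams, products of Laurent polynomials, and the
closure of the class of arrays.
-/

open Finset

namespace LG3.CS

section Compose

variable {K : Type*} [Field K]

theorem step_add (α β : K) (p : Piece) (v v' : List (Fin 4) → K) :
    step α β p (v + v') = step α β p v + step α β p v' := by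
  funext s
  cases p with
  | cup k f => simp only [step, Pi.add_apply, mul_add, Finset.sum_add_distrib]
  | cap k f =>
    simp only [step, Pi.add_apply, mul_add]
    rw [← Finset.sum_add_distrib]
    refine Finset.sum_congr rfl fun i _ => ?_
    split_ifs <;> simp
  | cross k e =>
    simp only [step, Pi.add_apply, mul_add]
    rw [← Finset.sum_add_distrib]
    refine Finset.sum_congr rfl fun i _ => ?_
    rw [← Finset.sum_add_distrib]
    refine Finset.sum_congr rfl fun j _ => ?_
    split_ifs
    · simp only [Finset.sum_add_distrib]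
    · simp

theorem step_smul (α β : K) (p : Piece) (c : K) (v : List (Fin 4) → K) :
    step α β p (c • v) = c • step α β p v := by
  funext s
  cases p with
  | cup k f =>
    simp only [step, Pi.smul_apply, smul_eq_mul, Finset.mul_sum]
    refine Finset.sum_congr rfl fun i _ => ?_
    ring
  | cap k f =>
    simp only [step, Pi.smul_apply, smul_eq_mul, Finset.mul_sum]
    refine Finset.sum_congr rfl fun i _ => ?_
    split_ifs <;> ring
  | cross k e =>
    simp only [step, Pi.smul_apply, smul_eq_mul, Finset.mul_sum]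
    refine Finset.sum_congr rfl fun i _ => ?_
    refine Finset.sum_congr rfl fun j _ => ?_
    split_ifs
    · simp only [Finset.mul_sum]
      refine Finset.sum_congr rfl fun a _ => ?_
      refine Finset.sum_congr rfl fun b _ => ?_
      ring
    · simp

/-- the state sum with an arbitrary end -/
def stL (α β : K) (w : List Piece) : (List (Fin 4) → K) →ₗ[K] (List (Fin 4) → K) where
  toFun v := w.foldr (step α β) v
  map_add' v v' := by
    induction w with
    | nil => rfl
    | cons p w ih =>
      show step α β p (w.foldr (step α β) (v + v')) = _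
      rw [ih, step_add]
      rfl
  map_smul' c v := by
    induction w with
    | nil => rfl
    | cons p w ih =>
      show step α β p (w.foldr (step α β) (c • v)) = _
      rw [ih]
      show step α β p (c • w.foldr (step α β) v) = _
      rw [step_smul]
      rfl

theorem step_loc (α β : K) (p : Piece) {l m : List Bool} (h : p.dir l = some m) {v v' : List (Fin 4) → K}
    (hv : ∀ r : List (Fin 4), r.length = m.length → v r = v' r) {s : List (Fin 4)} (hs : s.length = l.length) :
    step α β p v s = step α β p v' s := by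
  cases p with
  | cup k f =>
    simp only [Piece.dir] at h
    split_ifs at h with h1
    simp only [Option.some.injEq] at h
    subst h
    simp only [step]
    refine Finset.sum_congr rfl fun i _ => ?_
    rw [hv]
    simp only [List.length_append, List.length_take, List.length_cons, List.length_drop]
    omega
  | cap k f =>
    simp only [Piece.dir] at h
    split_ifs at h with h1
    simp only [Option.some.injEq] at h
    subst h
    have h2 := congrArg List.length h1
    simp only [List.length_cons, List.length_drop] at h2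
    simp only [step]
    refine Finset.sum_congr rfl fun i _ => ?_
    have e : v (s.take k ++ s.drop (k + 2)) = v' (s.take k ++ s.drop (k + 2)) := by
      apply hv
      simp only [List.length_append, List.length_take, List.length_drop]
      omega
    rw [e]
  | cross k e =>
    simp only [Piece.dir] at h
    split_ifs at h with h1
    simp only [Option.some.injEq] at h
    subst h
    have h2 := congrArg List.length h1
    simp only [List.length_cons, List.length_drop] at h2
    simp only [step]
    refine Finset.sum_congr rfl fun i _ => ?_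
    refine Finset.sum_congr rfl fun j _ => ?_
    split_ifs
    · refine Finset.sum_congr rfl fun a _ => ?_
      refine Finset.sum_congr rfl fun b _ => ?_
      rw [hv]
      simp only [List.length_append, List.length_take, List.length_cons, List.length_drop]
      omega
    · rfl

theorem stL_loc (α β : K) (w : List Piece) {l m : List Bool} (h : dirs w l = some m) {v v' : List (Fin 4) → K}
    (hv : ∀ r : List (Fin 4), r.length = m.length → v r = v' r) {s : List (Fin 4)} (hs : s.length = l.length) :
    stL α β w v s = stL α β w v' s := by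
  induction w generalizing l s with
  | nil =>
    have h' : some l = some m := h
    obtain rfl : l = m := Option.some.inj h'
    exact hv s hs
  | cons p w ih =>
    have h' : (p.dir l).bind (dirs w) = some m := h
    obtain ⟨l', h1, h2⟩ := Option.bind_eq_some_iff.mp h'
    exact step_loc α β p h1 (fun r hr => ih h2 hr) hs

theorem stateSum_comp (α β : K) (w w' : List Piece) (h : dirs w [true] = some [true]) (i j : Fin 4) :
    stateSum α β (w ++ w') [i] [j] = ∑ k, stateSum α β w' [k] [j] * stateSum α β w [i] [k] := by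
  have h1 : stateSum α β (w ++ w') [i] [j] = stL α β w (fun r => stateSum α β w' r [j]) [i] := by
    unfold stateSum stL
    rw [List.foldr_append]
    rfl
  have h2 : stL α β w (fun r => stateSum α β w' r [j]) [i] =
      stL α β w (∑ k : Fin 4, stateSum α β w' [k] [j] • (fun r : List (Fin 4) => if r = [k] then (1 : K) else 0))
        [i] := by
    refine stL_loc α β w h (fun r hr => ?_) rfl
    obtain ⟨k, rfl⟩ := List.length_eq_one_iff.mp (by simpa using hr)
    rw [Finset.sum_apply, Finset.sum_eq_single k]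
    · simp
    · intro b _ hb
      have : ¬([k] = [b]) := fun e => hb (by simpa using e.symm)
      simp [this]
    · intro hk
      exact absurd (Finset.mem_univ k) hk
  rw [h1, h2, map_sum, Finset.sum_apply]
  refine Finset.sum_congr rfl fun k _ => ?_
  rw [map_smul]
  rfl

end Compose

/-- the product of two Laurent polynomials -/
noncomputable def mulP (P Q : ℤ × ℤ →₀ ℤ) : ℤ × ℤ →₀ ℤ :=
  ∑ x ∈ P.support, P x • Q.mapDomain (fun y => x + y)

theorem mapDomain_shift (Q : ℤ × ℤ →₀ ℤ) (x z : ℤ × ℤ) : Q.mapDomain (fun y => x + y) z = Q (z - x) := by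
  have h := Finsupp.mapDomain_apply (f := fun y : ℤ × ℤ => x + y) (add_right_injective x) Q (z - x)
  simpa using h

theorem mulP_apply (P Q : ℤ × ℤ →₀ ℤ) (z : ℤ × ℤ) : mulP P Q z = ∑ x ∈ P.support, P x * Q (z - x) := by
  rw [mulP, Finsupp.finsetSum_apply]
  refine Finset.sum_congr rfl fun x _ => ?_
  rw [Finsupp.smul_apply, mapDomain_shift, smul_eq_mul]

/-- evaluation as an additive map -/
noncomputable def evH (t0 t1 : ℂ) : (ℤ × ℤ →₀ ℤ) →+ ℂ :=
  Finsupp.liftAddHom fun z => (AddMonoidHom.mulRight (t0 ^ z.1 * t1 ^ z.2)).comp (Int.castAddHom ℂ)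

theorem evH_eq (t0 t1 : ℂ) (P : ℤ × ℤ →₀ ℤ) : evH t0 t1 P = evalAt P t0 t1 := by
  rw [evH, Finsupp.liftAddHom_apply, evalAt]
  rfl

theorem evalAt_shift {t0 t1 : ℂ} (h0 : t0 ≠ 0) (h1 : t1 ≠ 0) (Q : ℤ × ℤ →₀ ℤ) (x : ℤ × ℤ) :
    evalAt (Q.mapDomain (fun y => x + y)) t0 t1 = (t0 ^ x.1 * t1 ^ x.2) * evalAt Q t0 t1 := by
  rw [evalAt, Finsupp.sum_mapDomain_index, evalAt, Finsupp.sum, Finsupp.sum, Finset.mul_sum]
  · refine Finset.sum_congr rfl fun y _ => ?_
    rw [Prod.fst_add, Prod.snd_add, zpow_add₀ h0, zpow_add₀ h1]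
    ring
  · intro z
    simp
  · intro z c d
    push_cast
    ring

theorem evalAt_mulP {t0 t1 : ℂ} (h0 : t0 ≠ 0) (h1 : t1 ≠ 0) (P Q : ℤ × ℤ →₀ ℤ) :
    evalAt (mulP P Q) t0 t1 = evalAt P t0 t1 * evalAt Q t0 t1 := by
  rw [← evH_eq, mulP, map_sum]
  have h : ∀ x ∈ P.support, evH t0 t1 (P x • Q.mapDomain (fun y => x + y)) =
      ((P x : ℂ) * (t0 ^ x.1 * t1 ^ x.2)) * evalAt Q t0 t1 := by
    intro x _
    rw [map_zsmul, evH_eq, evalAt_shift h0 h1, zsmul_eq_mul]
    ring
  rw [Finset.sum_congr rfl h, ← Finset.sum_mul]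
  rfl

/-- the Links-Gould polynomial of a composition -/
theorem comp {w w' : List Piece} {P Q : ℤ × ℤ →₀ ℤ} (hP : IsLinksGould w P) (hQ : IsLinksGould w' Q) :
    IsLinksGould (w ++ w') (mulP P Q) := by
  have d1 := (isTangle_iff w).mp hP.1
  have d2 := (isTangle_iff w').mp hQ.1
  refine ⟨(isTangle_iff _).mpr ?_, fun α β ha hb i j => ?_⟩
  · rw [dirs_append, d1, Option.bind_some, d2]
  · rw [stateSum_comp α β w w' d1 i j, evalAt_mulP (pow_ne_zero 2 ha) (pow_ne_zero 2 hb)]
    simp only [hP.2 α β ha hb, hQ.2 α β ha hb]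
    rw [Finset.sum_eq_single i]
    · rw [if_pos rfl]
      split_ifs
      · ring
      · simp
    · intro k _ hk
      rw [if_neg (show ¬ i = k from fun e => hk e.symm), mul_zero]
    · intro hi
      exact absurd (Finset.mem_univ i) hi

/-- the sign of a monomial -/
def sg (z : ℤ × ℤ) : ℤ := if Even (z.1 + z.2) then 1 else -1

theorem sg_add (x y : ℤ × ℤ) : sg (x + y) = sg x * sg y := by
  unfold sg
  have h : (x + y).1 + (x + y).2 = (x.1 + x.2) + (y.1 + y.2) := by
    rw [Prod.fst_add, Prod.snd_add]; ring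
  rw [h]
  by_cases h1 : Even (x.1 + x.2) <;> by_cases h2 : Even (y.1 + y.2) <;>
    simp [Int.even_add, h1, h2]

theorem sg_neg (z : ℤ × ℤ) : sg (-z) = sg z := by
  unfold sg
  have h : (-z).1 + (-z).2 = -(z.1 + z.2) := by
    rw [Prod.fst_neg, Prod.snd_neg]; ring
  rw [h]
  simp only [even_neg]

theorem sg_sq (z : ℤ × ℤ) : sg z = 1 ∨ sg z = -1 := by
  unfold sg
  split_ifs
  · exact Or.inl rfl
  · exact Or.inr rfl

/-- the sign rule, and the exchange inequalities for the absolute values -/
structure Good (P : ℤ × ℤ →₀ ℤ) : Prop where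
  sr : ∃ e : ℤ, (e = 1 ∨ e = -1) ∧ ∀ z, 0 ≤ e * sg z * P z
  lm : LM fun z => |((P z : ℤ) : ℝ)|

theorem abs_of_sign {e a : ℤ} {z : ℤ × ℤ} (he : e = 1 ∨ e = -1) (h : 0 ≤ e * sg z * a) : |a| = e * sg z * a := by
  rcases he with rfl | rfl <;> rcases sg_sq z with hs | hs <;> rw [hs] at h ⊢
  · rw [abs_of_nonneg (by linarith)]; ring
  · rw [abs_of_nonpos (by linarith)]; ring
  · rw [abs_of_nonpos (by linarith)]; ring
  · rw [abs_of_nonneg (by linarith)]; ring

theorem Good.mul {P Q : ℤ × ℤ →₀ ℤ} (hP : Good P) (hQ : Good Q) : Good (mulP P Q) := by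
  obtain ⟨e, he, hp⟩ := hP.sr
  obtain ⟨f, hf, hq⟩ := hQ.sr
  have hef : e * f = 1 ∨ e * f = -1 := by
    rcases he with rfl | rfl <;> rcases hf with rfl | rfl <;> simp
  have key : ∀ z, e * f * sg z * mulP P Q z = ∑ x ∈ P.support, |P x| * |Q (z - x)| := by
    intro z
    rw [mulP_apply, Finset.mul_sum]
    refine Finset.sum_congr rfl fun x _ => ?_
    rw [abs_of_sign he (hp x), abs_of_sign hf (hq (z - x))]
    have h : sg z = sg x * sg (z - x) := by
      rw [← sg_add]
      congr 1
      abel
    rw [h]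
    ring
  have hs : ∀ z, 0 ≤ e * f * sg z * mulP P Q z := fun z => by
    rw [key]
    exact Finset.sum_nonneg fun x _ => mul_nonneg (abs_nonneg _) (abs_nonneg _)
  refine ⟨⟨e * f, hef, hs⟩, ?_⟩
  have h2 : (fun z => |((mulP P Q z : ℤ) : ℝ)|) =
      cv P.support (fun z => |((P z : ℤ) : ℝ)|) (fun z => |((Q z : ℤ) : ℝ)|) := by
    funext z
    have h3 := abs_of_sign hef (hs z)
    rw [key z] at h3
    have h4 : ((|mulP P Q z| : ℤ) : ℝ) = ((∑ x ∈ P.support, |P x| * |Q (z - x)| : ℤ) : ℝ) := by rw [h3]
    push_cast at h4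
    exact h4
  rw [h2]
  refine cv_LM hP.lm hQ.lm (fun z hz => ?_)
  rw [Finsupp.notMem_support_iff.mp hz]
  simp

theorem LM.flip {F : ℤ × ℤ → ℝ} (hF : LM F) : LM fun z => F (-z) := by
  refine ⟨fun z => hF.nn _, fun i x y h => ?_⟩
  have h1 : cn i (-x - -y) := by
    have e : -x - -y = y - x := by abel
    rwa [e]
  have h2 := hF.ex i (-y) (-x) h1
  have e1 : -(x + dv i) = -x - dv i := by abel
  have e2 : -(y - dv i) = -y + dv i := by abel
  show F (-x) * F (-y) ≤ F (-(x + dv i)) * F (-(y - dv i))
  rw [e1, e2]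
  linarith [mul_comm (F (-x)) (F (-y)), mul_comm (F (-y + dv i)) (F (-x - dv i))]

theorem Good.flip {P : ℤ × ℤ →₀ ℤ} (hP : Good P) : Good (flipP P) := by
  obtain ⟨e, he, hp⟩ := hP.sr
  refine ⟨⟨e, he, fun z => ?_⟩, ?_⟩
  · rw [flipP_apply, ← sg_neg]
    exact hp _
  · have h := hP.lm.flip
    simpa only [flipP_apply] using h

theorem Good.mir {P : ℤ × ℤ →₀ ℤ} (hP : Good P) (s : Bool) : Good (mir s P) := by
  cases s
  · rw [LG3.mir, if_neg Bool.false_ne_true]
    exact hP.flip
  · rw [LG3.mir, if_pos rfl]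
    exact hP

theorem Good.unimodal {P : ℤ × ℤ →₀ ℤ} (hP : Good P) : Unimodal P := by
  intro c hc z hz
  have hset : {z : ℤ × ℤ | P z ≠ 0 ∧ c ≤ |(P z : ℝ)|} =
      {z : ℤ × ℤ | |(P z : ℝ)| ≠ 0 ∧ c ≤ |(P z : ℝ)|} := by
    ext w
    simp
  rw [hset] at hz ⊢
  exact LM.level hP.lm (T := P.support) (fun w => by simp) hc hz

end LG3.CS
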