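import Pool.Agent.Lib.MP_3cd99b_gt.CS.Sum
import Pool.Agent.Lib.MP_3cd99b_gt.CS.Num0

/-!
The antiparallel torus links T(2, 2b+2) are in the class.
-/

open Finset Polynomial

namespace LG3.CS

/-- the Links-Gould polynomial of the pretzel diagram with columns 1, 2 b + 1 -/
noncomputable def torP (b : ℕ) : ℤ × ℤ →₀ ℤ :=
  mulP (emb 0 0 (-RP b)) (emb 0 0 1 - emb 1 0 1 - emb 0 1 1 + emb 1 1 1)

theorem torP_eval {t0 t1 : ℂ} (h0 : t0 ≠ 0) (h1 : t1 ≠ 0) (b : ℕ) :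
    evalAt (torP b) t0 t1 = -((1 - t0) * (1 - t1) * (2 * sn (t0 * t1) b + bn (t0 * t1) (b + 1))) := by
  have e : evalAt (emb 0 0 1 - emb 1 0 1 - emb 0 1 1 + emb 1 1 1) t0 t1 =
      evalAt (emb 0 0 1) t0 t1 - evalAt (emb 1 0 1) t0 t1 - evalAt (emb 0 1 1) t0 t1 +
        evalAt (emb 1 1 1) t0 t1 := by
    simp only [← LG3.evH_eq, map_add, map_sub]
  rw [torP, evalAt_mulP h0 h1, e, evalAt_emb h0 h1, evalAt_emb h0 h1, evalAt_emb h0 h1, evalAt_emb h0 h1,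
    evalAt_emb h0 h1, RP]
  simp only [eval₂_neg, eval₂_add, eval₂_mul, eval₂_ofNat, eval₂_one, bP_eval, sP_eval, zpow_zero, zpow_one]
  ring

theorem value_two {α β : ℂ} (ha : α ≠ 0) (hb : β ≠ 0) (s : Bool) (b : ℕ) (i j : Fin 4) :
    amp α β (pretzel [(0, s), (b, s)]) [i] [j] =
    if i = j then -((1 - T0 α s) * (1 - T0 β s) * (2 * sn (T0 α s * T0 β s) b +
      bn (T0 α s * T0 β s) (b + 1))) else 0 := by
  rw [amp_pretzel]
  simp only [List.map_cons, List.map_nil, List.prod_cons, List.prod_nil, mul_one]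
  rw [Col_T ha hb, Col_T ha hb]
  have c2 := mat_cubT ha hb (!s)
  rw [Bool.not_not, T0_not, T0_not, ← mul_inv] at c2
  have r2 := mat_RR ha hb (!s)
  rw [Bool.not_not] at r2
  have e : -(T0 α s * T0 β s * bn (T0 α s * T0 β s) 0) =
      -(T0 α s * T0 β s) * bn (T0 α s * T0 β s) 0 := by ring
  rw [e]
  have := tr_li' (T0_ne ha s) (T0_ne hb s) (mat_RR ha hb s) r2 (mat_cubT ha hb s) c2
    (τ := fun M => cl α β M i j) (δ := if i = j then 1 else 0) (fun M N => cl_add α β M N i j)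
    (fun z M => cl_smul α β z M i j) (cl_one α β i j) (cl_Rt ha hb s i j) (cl_Rt ha hb (!s) i j)
    (bn (T0 α s * T0 β s) (0 + 1)) (bn (T0 α s * T0 β s) 0)
    (-(2 * (1 - T0 α s) * (1 - T0 β s) * sn (T0 α s * T0 β s) 0))
    (bn (T0 α s * T0 β s) (b + 1)) (-(T0 α s * T0 β s * bn (T0 α s * T0 β s) b))
    (-(2 * (1 - T0 α s) * (1 - T0 β s) * sn (T0 α s * T0 β s) b))
  rw [this]
  simp only [bn, sn]
  split_ifs <;> ring

theorem lg_tor (s : Bool) (b : ℕ) : IsLGold (pretzel [(0, s), (b, s)]) (mir s (torP b)) := by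
  refine ⟨dirs_pretzel _, fun α β ha hb i j => ?_⟩
  rw [value_two ha hb, mir_eval, torP_eval (T0_ne ha s) (T0_ne hb s)]

theorem diag_apply (b : ℕ) (z : ℤ × ℤ) : emb 0 0 (-RP b) z =
    if z.1 = z.2 ∧ 0 ≤ z.1 ∧ z.1 ≤ b then -(2 * ((b : ℤ) - z.1) + 1) else 0 := by
  obtain ⟨i, j⟩ := z
  rw [emb_apply, cfn, coeff_neg, RP_coeff]
  simp only
  split_ifs <;> omega

/-- a log-concave sequence on the diagonal -/
theorem good_diag (b : ℕ) : Good (emb 0 0 (-RP b)) := by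
  refine ⟨⟨-1, Or.inr rfl, fun z => ?_⟩, fun z => abs_nonneg _, fun i x y h => ?_⟩
  · rw [diag_apply]
    split_ifs with hz
    · have hs : sg z = 1 := by
        unfold sg
        rw [if_pos]
        rw [hz.1]
        exact ⟨z.2, rfl⟩
      rw [hs]
      have := hz.2.2
      linarith
    · simp
  · have nn : ∀ z, 0 ≤ |((emb 0 0 (-RP b) z : ℤ) : ℝ)| := fun z => abs_nonneg _
    by_cases hx : x.1 = x.2 ∧ 0 ≤ x.1 ∧ x.1 ≤ b
    · by_cases hy : y.1 = y.2 ∧ 0 ≤ y.1 ∧ y.1 ≤ b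
      · obtain ⟨x1, x2⟩ := x
        obtain ⟨y1, y2⟩ := y
        simp only at hx hy
        fin_cases i
        · have h' : 0 < y1 - x1 ∧ y2 - x2 < y1 - x1 := h
          omega
        · have h' : 0 < y2 - x2 ∧ y1 - x1 < y2 - x2 := h
          omega
        · have h' : 0 < y1 - x1 ∧ 0 < y2 - x2 := h
          show |((emb 0 0 (-RP b) (x1, x2) : ℤ) : ℝ)| * |((emb 0 0 (-RP b) (y1, y2) : ℤ) : ℝ)| ≤
            |((emb 0 0 (-RP b) (x1 + 1, x2 + 1) : ℤ) : ℝ)| * |((emb 0 0 (-RP b) (y1 - 1, y2 - 1) : ℤ) : ℝ)|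
          rw [diag_apply, diag_apply, diag_apply, diag_apply]
          simp only
          rw [if_pos hx, if_pos hy, if_pos (by omega), if_pos (by omega)]
          rw [← Int.cast_abs, ← Int.cast_abs, ← Int.cast_abs, ← Int.cast_abs, ← Int.cast_mul, ← Int.cast_mul,
            Int.cast_le, abs_neg, abs_neg, abs_neg, abs_neg, abs_of_nonneg (by omega), abs_of_nonneg (by omega),
            abs_of_nonneg (by omega), abs_of_nonneg (by omega)]
          nlinarith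
      · have e : |((emb 0 0 (-RP b) y : ℤ) : ℝ)| = 0 := by
          rw [diag_apply, if_neg hy]
          simp
        show |((emb 0 0 (-RP b) x : ℤ) : ℝ)| * |((emb 0 0 (-RP b) y : ℤ) : ℝ)| ≤ _
        rw [e, mul_zero]
        exact mul_nonneg (nn _) (nn _)
    · have e : |((emb 0 0 (-RP b) x : ℤ) : ℝ)| = 0 := by
        rw [diag_apply, if_neg hx]
        simp
      show |((emb 0 0 (-RP b) x : ℤ) : ℝ)| * |((emb 0 0 (-RP b) y : ℤ) : ℝ)| ≤ _
      rw [e, zero_mul]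
      exact mul_nonneg (nn _) (nn _)

theorem cfn_one (k : ℤ) : cfn 1 k = if k = 0 then 1 else 0 := by
  unfold cfn
  rw [coeff_one]
  split_ifs <;> omega

theorem hopf_apply (z : ℤ × ℤ) : (emb 0 0 1 - emb 1 0 1 - emb 0 1 1 + emb 1 1 1 : ℤ × ℤ →₀ ℤ) z =
    if 0 ≤ z.1 ∧ z.1 ≤ 1 ∧ 0 ≤ z.2 ∧ z.2 ≤ 1 then sg z else 0 := by
  obtain ⟨i, j⟩ := z
  simp only [Finsupp.add_apply, Finsupp.sub_apply, emb_apply, cfn_one]
  by_cases h : 0 ≤ i ∧ i ≤ 1 ∧ 0 ≤ j ∧ j ≤ 1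
  · have hi : i = 0 ∨ i = 1 := by omega
    have hj : j = 0 ∨ j = 1 := by omega
    rcases hi with rfl | rfl <;> rcases hj with rfl | rfl <;> simp [sg]
  · rw [if_neg h]
    split_ifs <;> omega

theorem good_hopf : Good (emb 0 0 1 - emb 1 0 1 - emb 0 1 1 + emb 1 1 1) := by
  refine ⟨⟨1, Or.inl rfl, fun z => ?_⟩, fun z => abs_nonneg _, fun i x y h => ?_⟩
  · rw [hopf_apply]
    split_ifs
    · rcases sg_sq z with hs | hs <;> rw [hs] <;> norm_num
    · simp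
  · have key : ∀ z : ℤ × ℤ, |(((emb 0 0 1 - emb 1 0 1 - emb 0 1 1 + emb 1 1 1 : ℤ × ℤ →₀ ℤ) z : ℤ) : ℝ)| =
        if 0 ≤ z.1 ∧ z.1 ≤ 1 ∧ 0 ≤ z.2 ∧ z.2 ≤ 1 then 1 else 0 := by
      intro z
      rw [hopf_apply]
      split_ifs
      · rcases sg_sq z with hs | hs <;> rw [hs] <;> simp
      · simp
    simp only [key]
    obtain ⟨x1, x2⟩ := x
    obtain ⟨y1, y2⟩ := y
    by_cases hx : 0 ≤ x1 ∧ x1 ≤ 1 ∧ 0 ≤ x2 ∧ x2 ≤ 1
    · by_cases hy : 0 ≤ y1 ∧ y1 ≤ 1 ∧ 0 ≤ y2 ∧ y2 ≤ 1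
      · have hc : (0 ≤ x1 + (dv i).1 ∧ x1 + (dv i).1 ≤ 1 ∧ 0 ≤ x2 + (dv i).2 ∧ x2 + (dv i).2 ≤ 1) ∧
            (0 ≤ y1 - (dv i).1 ∧ y1 - (dv i).1 ≤ 1 ∧ 0 ≤ y2 - (dv i).2 ∧ y2 - (dv i).2 ≤ 1) := by
          fin_cases i
          · have h' : 0 < y1 - x1 ∧ y2 - x2 < y1 - x1 := h
            simp only [dv, Fin.zero_eta, Matrix.cons_val_zero]
            omega
          · have h' : 0 < y2 - x2 ∧ y1 - x1 < y2 - x2 := h
            simp only [dv, Fin.mk_one, Matrix.cons_val_one, Matrix.cons_val_zero]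
            omega
          · have h' : 0 < y1 - x1 ∧ 0 < y2 - x2 := h
            simp only [dv, Fin.reduceFinMk, Matrix.cons_val]
            omega
        have e1 : ((x1, x2) + dv i : ℤ × ℤ) = (x1 + (dv i).1, x2 + (dv i).2) := rfl
        have e2 : ((y1, y2) - dv i : ℤ × ℤ) = (y1 - (dv i).1, y2 - (dv i).2) := rfl
        rw [e1, e2]
        simp only
        rw [if_pos hx, if_pos hy, if_pos hc.1, if_pos hc.2]
      · simp only
        rw [if_neg hy, mul_zero]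
        refine mul_nonneg ?_ ?_ <;> split_ifs <;> norm_num
    · simp only
      rw [if_neg hx, zero_mul]
      refine mul_nonneg ?_ ?_ <;> split_ifs <;> norm_num

theorem good_tor (b : ℕ) : Good (torP b) := (good_diag b).mul good_hopf

end LG3.CS
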