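import Pool.Agent.Lib.MP_3cd99b_gt.CS.Num3
import Pool.Agent.Lib.MP_3cd99b_gt.CS.Sum

/-!
The double twist knots are in the class.
-/

open Finset Polynomial

namespace LG3.CS

theorem cfn_nn {f : ℤ[X]} (h : ∀ k, 0 ≤ f.coeff k) (j : ℤ) : 0 ≤ cfn f j := by
  unfold cfn
  split_ifs
  · exact h _
  · exact le_rfl

theorem sg_even {z : ℤ × ℤ} (h : (z.1 - z.2) % 2 = 0) : sg z = 1 := by
  unfold sg
  rw [if_pos]
  rw [Int.even_iff]
  omega

theorem sg_odd {z : ℤ × ℤ} (h : (z.1 - z.2) % 2 = 1) : sg z = -1 := by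
  unfold sg
  rw [if_neg]
  rw [Int.even_iff]
  omega

theorem mkP_sign {n N : ℕ} {G0 G1 G2 : ℤ[X]} (H : LS N G0.coeff G1.coeff G2.coeff) (z : ℤ × ℤ) :
    0 ≤ sg z * mkP n G0 G1 G2 z := by
  have c0 := cfn_nn H.n0
  have c1 := cfn_nn H.n1
  have c2 := cfn_nn H.n2
  rw [mkP_apply]
  by_cases h0 : z.1 - z.2 = 0
  · rw [sg_even (by omega), if_pos h0, if_neg (by omega), if_neg (by omega), if_neg (by omega), if_neg (by omega)]
    linarith [c0 (z.1 + n)]
  by_cases h1 : z.1 - z.2 = 1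
  · rw [sg_odd (by omega), if_neg h0, if_pos h1, if_neg (by omega), if_neg (by omega), if_neg (by omega)]
    linarith [c1 (z.2 + n)]
  by_cases h2 : z.1 - z.2 = -1
  · rw [sg_odd (by omega), if_neg h0, if_neg h1, if_pos h2, if_neg (by omega), if_neg (by omega)]
    linarith [c1 (z.1 + n)]
  by_cases h3 : z.1 - z.2 = 2
  · rw [sg_even (by omega), if_neg h0, if_neg h1, if_neg h2, if_pos h3, if_neg (by omega)]
    linarith [c2 (z.2 + n)]
  by_cases h4 : z.1 - z.2 = -2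
  · rw [sg_even (by omega), if_neg h0, if_neg h1, if_neg h2, if_neg h3, if_pos h4]
    linarith [c2 (z.1 + n)]
  · rw [if_neg h0, if_neg h1, if_neg h2, if_neg h3, if_neg h4]
    simp

theorem good_mkP {n N : ℕ} {G0 G1 G2 : ℤ[X]} (H : LS N G0.coeff G1.coeff G2.coeff) : Good (mkP n G0 G1 G2) :=
  ⟨⟨1, Or.inl rfl, fun z => by
    rw [one_mul]
    exact mkP_sign H z⟩, H.lm n⟩

theorem good_two (m n : ℕ) (hn : 1 ≤ n) : Good (mkPQ n (P1 m n) (Q1 m n)) := good_mkP (ls_two m n hn)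

end LG3.CS
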